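import Pool.Agent.Lib.MP_71d0e6_al.Local

/-!
Compactness modulo an oligomorphic automorphism group.
-/

namespace Pool.Agent.Lib.MP_71d0e6_al

open Classical Filter FirstOrder FirstOrder.Language FirstOrder.Language.Structure

variable {L : Language} {M : Type*} [L.Structure M]

theorem limit_nat
    (olig : ∀ n : ℕ, ∃ S : Set (Fin n → M), S.Finite ∧
      ∀ x : Fin n → M, ∃ y ∈ S, ∃ g : M ≃[L] M, ∀ i, g (y i) = x i)
    (h : ℕ → ℕ → M) : ∃ w : ℕ → M, ∀ k : ℕ,
      ∀ᶠ n in (hyperfilter ℕ : Filter ℕ), ∃ g : M ≃[L] M, ∀ i, i < k → w i = g (h n i) := by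
  let P : ℕ → (ℕ → M) → Prop := fun k w =>
    ∀ᶠ n in (hyperfilter ℕ : Filter ℕ), ∃ g : M ≃[L] M, ∀ i, i < k → w i = g (h n i)
  have step : ∀ (k : ℕ) (w : ℕ → M), ∃ m, P k w → P (k + 1) (Function.update w k m) := by
    intro k w
    by_cases hw : P k w
    swap
    · exact ⟨w 0, fun h => absurd h hw⟩
    obtain ⟨S, hS, hrep⟩ := olig (k + 1)
    have h1 : ∀ᶠ n in (hyperfilter ℕ : Filter ℕ), ∃ y ∈ S, ∃ g : M ≃[L] M,
        ∀ i : Fin (k + 1), g (y i) = h n i := Eventually.of_forall fun n => hrep _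
    obtain ⟨y, -, hy⟩ := (Ultrafilter.eventually_exists_mem_iff hS).1 h1
    obtain ⟨n0, ⟨g1, e1⟩, g2, e2⟩ := (hw.and hy).exists
    refine ⟨g1 (g2 (y (Fin.last k))), fun _ => hy.mono ?_⟩
    rintro n ⟨g, hg⟩
    refine ⟨g1.comp (g2.comp g.symm), fun i hi => ?_⟩
    have e3 := hg ⟨i, hi⟩
    have e4 := e2 ⟨i, hi⟩
    simp only at e3 e4
    simp only [Language.Equiv.comp_apply]
    rw [← e3, g.symm_apply_apply]
    by_cases hik : i = k
    · subst hik
      rw [Function.update_self]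
      rfl
    · rw [Function.update_of_ne hik, e4]
      exact e1 i (by omega)
  choose nxt hnxt using step
  let W : ℕ → ℕ → M := fun k => Nat.rec (h 0) (fun k w => Function.update w k (nxt k w)) k
  have hW : ∀ k, P k (W k) := by
    intro k
    induction k with
    | zero => exact Eventually.of_forall fun n => ⟨Language.Equiv.refl L M, fun i hi => by omega⟩
    | succ k ih => exact hnxt k _ ih
  have hst : ∀ k i, i < k → W (i + 1) i = W k i := by
    intro k
    induction k with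
    | zero => intro i hi; omega
    | succ k ih =>
      intro i hi
      by_cases hik : i = k
      · rw [hik]
      · rw [ih i (by omega)]
        exact (Function.update_of_ne hik _ _).symm
  refine ⟨fun i => W (i + 1) i, fun k => (hW k).mono ?_⟩
  rintro n ⟨g, hg⟩
  exact ⟨g, fun i hi => (hst k i hi).trans (hg i hi)⟩

theorem limit_countable
    (olig : ∀ n : ℕ, ∃ S : Set (Fin n → M), S.Finite ∧
      ∀ x : Fin n → M, ∃ y ∈ S, ∃ g : M ≃[L] M, ∀ i, g (y i) = x i)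
    {X : Type*} [Countable X] [Nonempty X] (h : ℕ → X → M) : ∃ w : X → M,
      ∀ (F : Set X), F.Finite → ∀ n₀ : ℕ, ∃ n, n₀ ≤ n ∧ ∃ g : M ≃[L] M, ∀ x ∈ F, w x = g (h n x) := by
  obtain ⟨f, hf⟩ := exists_injective_nat X
  obtain ⟨w, hw⟩ := limit_nat olig fun n j => h n (Function.invFun f j)
  refine ⟨fun x => w (f x), fun F hF n₀ => ?_⟩
  obtain ⟨k, hk⟩ := (hF.image f).bddAbove
  have h1 : ∀ᶠ n in (hyperfilter ℕ : Filter ℕ), n₀ ≤ n :=
    Nat.hyperfilter_le_atTop (eventually_ge_atTop n₀)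
  obtain ⟨n, hn, g, hg⟩ := (h1.and (hw (k + 1))).exists
  refine ⟨n, hn, g, fun x hx => ?_⟩
  have := hg (f x) (Nat.lt_succ_of_le (hk ⟨x, hx, rfl⟩))
  rwa [Function.leftInverse_invFun hf x] at this

theorem IsPolymorphism.of_local {ι : Type} {f : (ι → M) → M}
    (h : ∀ F : Set (ι → M), F.Finite → ∃ f' : (ι → M) → M, IsPolymorphism L f' ∧
      ∀ x ∈ F, f x = f' x) : IsPolymorphism L f := by
  refine ⟨fun k F x => ?_, fun k R x hx => ?_⟩
  · obtain ⟨f', h1, h2⟩ := h (insert (fun i => funMap F (x i)) (Set.range fun j i => x i j))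
      ((Set.finite_range _).insert _)
    rw [h2 _ (Set.mem_insert _ _), h1.1 k F x]
    congr 1
    funext j
    exact (h2 _ (Set.mem_insert_of_mem _ ⟨j, rfl⟩)).symm
  · obtain ⟨f', h1, h2⟩ := h (Set.range fun j i => x i j) (Set.finite_range _)
    have : (fun j => f fun i => x i j) = fun j => f' fun i => x i j :=
      funext fun j => h2 _ ⟨j, rfl⟩
    rw [this]
    exact h1.2 k R x hx

theorem exists_hom_of_local (f : M → M)
    (h : ∀ F : Set M, F.Finite → ∃ g : M ≃[L] M, ∀ x ∈ F, f x = g x) :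
    ∃ u : M →[L] M, ∀ x, u x = f x := by
  have : IsPolymorphism L (fun x : Unit → M => f (x ())) := by
    refine IsPolymorphism.of_local fun F hF => ?_
    obtain ⟨g, hg⟩ := h _ (hF.image fun x => x ())
    exact ⟨_, (IsPolymorphism.proj ()).hom_comp g.toHom, fun x hx => hg _ ⟨x, hx, rfl⟩⟩
  exact ⟨this.diag, fun _ => rfl⟩

/-- From orbit equivalence on finite sets to a global pseudo-identity. -/
theorem global_of_local [Countable M] [Nonempty M]
    (olig : ∀ n : ℕ, ∃ S : Set (Fin n → M), S.Finite ∧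
      ∀ x : Fin n → M, ∃ y ∈ S, ∃ g : M ≃[L] M, ∀ i, g (y i) = x i)
    {ι : Type} [Finite ι] {D : Type*} [Countable D] [Nonempty D] (p q : D → ι → M)
    (h : ∀ (m : ℕ) (d : Fin m → D), ∃ (t : (ι → M) → M) (g : M ≃[L] M), IsPolymorphism L t ∧
      ∀ n, g (t (p (d n))) = t (q (d n))) :
    ∃ (s : (ι → M) → M) (u v : M →[L] M), IsPolymorphism L s ∧ ∀ d, u (s (p d)) = v (s (q d)) := by
  obtain ⟨τ, hτ⟩ := exists_surjective_nat D
  choose t g ht hg using fun m => h m fun n => τ n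
  obtain ⟨s, hs⟩ := limit_countable olig t
  have hsp : IsPolymorphism L s := by
    refine IsPolymorphism.of_local fun F hF => ?_
    obtain ⟨n, -, γ, hγ⟩ := hs F hF 0
    exact ⟨_, (ht n).hom_comp γ.toHom, hγ⟩
  have hloc : ∀ m : ℕ, ∃ γ : M ≃[L] M, ∀ j, j < m → γ (s (p (τ j))) = s (q (τ j)) := by
    intro m
    obtain ⟨n, hn, γ, hγ⟩ := hs ((Set.range fun j : Fin m => p (τ j)) ∪
      Set.range fun j : Fin m => q (τ j)) ((Set.finite_range _).union (Set.finite_range _)) m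
    refine ⟨γ.comp ((g n).comp γ.symm), fun j hj => ?_⟩
    simp only [Language.Equiv.comp_apply]
    rw [hγ _ (Or.inl ⟨⟨j, hj⟩, rfl⟩), hγ _ (Or.inr ⟨⟨j, hj⟩, rfl⟩), γ.symm_apply_apply]
    exact congrArg γ (hg n ⟨j, by omega⟩)
  choose γ hγ using hloc
  obtain ⟨w, hw⟩ := limit_countable olig (X := M ⊕ M) fun n => Sum.elim (γ n) id
  obtain ⟨u, hu⟩ := exists_hom_of_local (L := L) (fun x => w (Sum.inl x)) fun F hF => by
    obtain ⟨n, -, α, hα⟩ := hw _ (hF.image Sum.inl) 0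
    exact ⟨α.comp (γ n), fun x hx => hα _ ⟨x, hx, rfl⟩⟩
  obtain ⟨v, hv⟩ := exists_hom_of_local (L := L) (fun x => w (Sum.inr x)) fun F hF => by
    obtain ⟨n, -, α, hα⟩ := hw _ (hF.image Sum.inr) 0
    exact ⟨α, fun x hx => hα _ ⟨x, hx, rfl⟩⟩
  refine ⟨s, u, v, hsp, fun d => ?_⟩
  obtain ⟨j, rfl⟩ := hτ d
  obtain ⟨n, hn, α, hα⟩ := hw {Sum.inl (s (p (τ j))), Sum.inr (s (q (τ j)))}
    (Set.toFinite _) (j + 1)
  rw [hu, hv, hα _ (by simp), hα _ (by simp)]
  exact congrArg α (hγ n j (by omega))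

end Pool.Agent.Lib.MP_71d0e6_al
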