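import Mathlib

namespace Pool.Agent.Lib.MP_71d0e6_al

open FirstOrder FirstOrder.Language FirstOrder.Language.Structure

/-- `s` is a polymorphism of the structure `M`: a homomorphism from the power `ι → M` to `M`.
It commutes with every basic function and preserves every basic relation, coordinatewise. -/
def IsPolymorphism (L : Language) {M : Type*} [L.Structure M] {ι : Type} (s : (ι → M) → M) :
    Prop :=
  (∀ (k : ℕ) (F : L.Functions k) (x : ι → Fin k → M),
    s (fun i => funMap F (x i)) = funMap F (fun j => s (fun i => x i j))) ∧
  ∀ (k : ℕ) (R : L.Relations k) (x : ι → Fin k → M),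
    (∀ i, RelMap R (x i)) → RelMap R (fun j => s (fun i => x i j))

end Pool.Agent.Lib.MP_71d0e6_al
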