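import Mathlib

/-!
Loops in graphs compatible with a Hobby-McKenzie operation.
-/

namespace Pool.Agent.Lib.MP_71d0e6_al.HM

universe u

variable {n : ℕ}

/-- The tuple with `b` on `J` and `a` elsewhere. -/
def tup {B : Type u} (J : Finset (Fin n)) (b a : B) : Fin n → B := fun i => if i ∈ J then b else a

/-- `g` is idempotent and satisfies the two-variable identities listed in `E`. -/
structure Mod (E : Finset (Fin n) → Finset (Fin n) → Prop) {B : Type u} (g : (Fin n → B) → B) :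
    Prop where
  idem : ∀ a, g (fun _ => a) = a
  ids : ∀ J K, E J K → ∀ b a, g (tup J b a) = g (tup K b a)

/-- `G` is a symmetric relation compatible with `g`. -/
structure Gr {B : Type u} (g : (Fin n → B) → B) (G : B → B → Prop) : Prop where
  symm : ∀ {a b}, G a b → G b a
  comp : ∀ {p q : Fin n → B}, (∀ i, G (p i) (q i)) → G (g p) (g q)

/-- `S` is closed under `g`. -/
def Cl {B : Type u} (g : (Fin n → B) → B) (S : Set B) : Prop :=
  ∀ p : Fin n → B, (∀ i, p i ∈ S) → g p ∈ S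

/-- `S` contains `m` pairwise adjacent vertices. -/
def Rich {B : Type u} (G : B → B → Prop) (m : ℕ) (S : Set B) : Prop :=
  ∃ k : Fin m → B, (∀ i, k i ∈ S) ∧ ∀ i j, i ≠ j → G (k i) (k j)

theorem Rich.mono {B : Type u} {G : B → B → Prop} {m m' : ℕ} {S S' : Set B} (h : Rich G m S)
    (hm : m' ≤ m) (hS : S ⊆ S') : Rich G m' S' := by
  obtain ⟨k, h1, h2⟩ := h
  exact ⟨fun i => k (Fin.castLE hm i), fun i => hS (h1 _),
    fun i j hij => h2 _ _ fun e => hij (Fin.castLE_injective hm e)⟩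

theorem avoid (r : ℕ) (i j : Fin (r + 2)) :
    ∃ e : Fin r → Fin (r + 2), Function.Injective e ∧ ∀ l, e l ≠ i ∧ e l ≠ j := by
  have h : Fintype.card (Fin r) ≤ (({i, j} : Finset (Fin (r + 2)))ᶜ).card := by
    rw [Finset.card_compl, Fintype.card_fin, Fintype.card_fin]
    have := Finset.card_le_two (a := i) (b := j)
    omega
  obtain ⟨e, he⟩ := Function.Embedding.exists_of_card_le_finset h
  refine ⟨e, e.injective, fun l => ?_⟩
  have := he ⟨l, rfl⟩
  simp only [Finset.coe_compl, Finset.coe_insert, Finset.coe_singleton, Set.mem_compl_iff,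
    Set.mem_insert_iff, Set.mem_singleton_iff, not_or] at this
  exact this

section

variable {B : Type u} {g : (Fin n → B) → B} {G : B → B → Prop}

theorem cl_nbr (hi : ∀ a, g (fun _ => a) = a) (hG : Gr g G) {S : Set B} (hS : Cl g S) (v w : B) :
    Cl g {a | a ∈ S ∧ G v a ∧ G w a} := by
  intro p hp
  refine ⟨hS p fun i => (hp i).1, ?_, ?_⟩
  · rw [← hi v]; exact hG.comp fun i => (hp i).2.1
  · rw [← hi w]; exact hG.comp fun i => (hp i).2.2

/-- Inside the subalgebra generated by a clique, two vertices have a large common neighbourhood. -/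
theorem core (hi : ∀ a, g (fun _ => a) = a) (hG : Gr g G) {S : Set B} (hS : Cl g S) {r : ℕ}
    (h : Rich G (r + 2) S) : ∃ T ⊆ S, Cl g T ∧ Rich G (r + 2) T ∧
      ∀ v ∈ T, ∀ w ∈ T, Rich G r {a | a ∈ T ∧ G v a ∧ G w a} := by
  obtain ⟨k, hk, hc⟩ := h
  let T : Set B := {a | ∀ U : Set B, Cl g U → (∀ i, k i ∈ U) → a ∈ U}
  have hT : Cl g T := fun p hp U hU hkU => hU p fun i => hp i U hU hkU
  have hkT : ∀ i, k i ∈ T := fun i U _ hkU => hkU i
  have step : ∀ p q : Fin n → B, (∀ i, Rich G r {a | a ∈ T ∧ G (p i) a ∧ G (q i) a}) →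
      Rich G r {a | a ∈ T ∧ G (g p) a ∧ G (g q) a} := by
    intro p q hpq
    choose w h1 h2 using hpq
    exact ⟨fun l => g fun i => w i l, fun l => ⟨hT _ fun i => (h1 i l).1,
      hG.comp fun i => (h1 i l).2.1, hG.comp fun i => (h1 i l).2.2⟩,
      fun l l' hl => hG.comp fun i => h2 i l l' hl⟩
  have base : ∀ i j, Rich G r {a | a ∈ T ∧ G (k i) a ∧ G (k j) a} := by
    intro i j
    obtain ⟨e, he, he'⟩ := avoid r i j
    exact ⟨fun l => k (e l), fun l => ⟨hkT _, hc _ _ (he' l).1.symm, hc _ _ (he' l).2.symm⟩,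
      fun l l' hl => hc _ _ fun h => hl (he h)⟩
  have half : ∀ v ∈ T, ∀ j, Rich G r {a | a ∈ T ∧ G v a ∧ G (k j) a} := by
    intro v hv j
    refine hv {v | Rich G r {a | a ∈ T ∧ G v a ∧ G (k j) a}} (fun p hp => ?_) fun i => base i j
    have := step p (fun _ => k j) hp
    rwa [hi] at this
  refine ⟨T, fun a ha => ha S hS hk, hT, ⟨k, hkT, hc⟩, fun v hv w hw => ?_⟩
  refine hw {w | Rich G r {a | a ∈ T ∧ G v a ∧ G w a}} (fun p hp => ?_) fun j => half v hv j
  have := step (fun _ => v) p hp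
  rwa [hi] at this

end

/-- The invariant: large cliques generate `a, b` with `g (tup J b a)` adjacent to `a`. -/
def Phi (E : Finset (Fin n) → Finset (Fin n) → Prop) (J : Finset (Fin n)) : Prop :=
  ∃ m : ℕ, ∀ (B : Type u) (g : (Fin n → B) → B) (G : B → B → Prop), Mod E g → Gr g G →
    ∀ S : Set B, Cl g S → Rich G m S → ∃ a ∈ S, ∃ b ∈ S, G (g (tup J b a)) a

variable {E : Finset (Fin n) → Finset (Fin n) → Prop}

theorem cl_tup {B : Type u} {g : (Fin n → B) → B} {S : Set B} (hS : Cl g S) (J : Finset (Fin n))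
    {a b : B} (ha : a ∈ S) (hb : b ∈ S) : g (tup J b a) ∈ S :=
  hS _ fun i => by unfold tup; split_ifs; exacts [hb, ha]

theorem phi_univ : Phi.{u} E Finset.univ := by
  refine ⟨2, fun B g G hg _ S _ ⟨k, h1, h2⟩ => ⟨k 0, h1 0, k 1, h1 1, ?_⟩⟩
  have : tup (Finset.univ : Finset (Fin n)) (k 1) (k 0) = fun _ => k 1 := by
    funext i; simp [tup]
  rw [this, hg.idem]
  exact h2 1 0 (by decide)

theorem phi_up {J K : Finset (Fin n)} (hJK : J ⊆ K) (h : Phi.{u} E J) : Phi.{u} E K := by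
  obtain ⟨m, hm⟩ := h
  refine ⟨m + 1 + 2, fun B g G hg hG S hS hR => ?_⟩
  obtain ⟨T, hTS, hT, hR', hN⟩ := core hg.idem hG hS hR
  obtain ⟨p, hp, q, hq, hpq⟩ := hm B g G hg hG T hT (hR'.mono (by omega) le_rfl)
  obtain ⟨w, hw, -⟩ := hN p hp q hq
  obtain ⟨h1, h2, h3⟩ := hw 0
  refine ⟨g (tup J q p), hTS (cl_tup hT J hp hq), w 0, hTS h1, hG.comp fun i => ?_⟩
  unfold tup
  by_cases hi : i ∈ J
  · rw [if_pos (hJK hi), if_pos hi]; exact hG.symm h3
  · rw [if_neg hi]
    split_ifs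
    · exact hG.symm h2
    · exact hpq

theorem phi_inter {J K : Finset (Fin n)} (hJ : Phi.{u} E J) (hK : Phi.{u} E K) :
    Phi.{u} E (J ∩ K) := by
  obtain ⟨m, hm⟩ := hJ
  obtain ⟨m', hm'⟩ := hK
  refine ⟨m + m' + 1 + 2, fun B g G hg hG S hS hR => ?_⟩
  obtain ⟨T, hTS, hT, hR', hN⟩ := core hg.idem hG hS hR
  obtain ⟨p, hp, q, hq, hpq⟩ := hm B g G hg hG T hT (hR'.mono (by omega) le_rfl)
  have hc : g (tup J q p) ∈ T := cl_tup hT J hp hq
  set c := g (tup J q p) with hcd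
  have hU := cl_nbr hg.idem hG hT q c
  obtain ⟨p', hp', q', hq', hpq'⟩ := hm' B g G hg hG _ hU ((hN q hq c hc).mono (by omega) le_rfl)
  have hc' := cl_tup hU K hp' hq'
  set c' := g (tup K q' p') with hcd'
  obtain ⟨w, hw, -⟩ := hN q hq q' hq'.1
  obtain ⟨e1, e2, e3⟩ := hw 0
  let z : Fin n → B := fun i => if i ∈ J then (if i ∈ K then w 0 else c') else c
  have hz : g z ∈ T := hT _ fun i => by
    simp only [z]; split_ifs; exacts [e1, hc'.1, hc]
  have a1 : G (g z) c := hG.comp fun i => by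
    simp only [z, tup]; split_ifs
    exacts [hG.symm e2, hG.symm hc'.2.1, hpq]
  have a2 : G (g z) c' := hG.comp fun i => by
    simp only [z, tup]; split_ifs
    exacts [hG.symm e3, hpq', hq'.2.2, hp'.2.2]
  refine ⟨g z, hTS hz, q, hTS hq, hG.comp fun i => ?_⟩
  simp only [z, tup, Finset.mem_inter]
  by_cases h1 : i ∈ J <;> by_cases h2 : i ∈ K <;> simp only [h1, h2, and_self, and_true,
    and_false, if_true, if_false]
  exacts [e2, a2, a1, a1]

theorem phi_id {J K : Finset (Fin n)} (h : E J K) (hJ : Phi.{u} E J) : Phi.{u} E K := by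
  obtain ⟨m, hm⟩ := hJ
  refine ⟨m, fun B g G hg hG S hS hR => ?_⟩
  obtain ⟨a, ha, b, hb, hab⟩ := hm B g G hg hG S hS hR
  exact ⟨a, ha, b, hb, hg.ids J K h b a ▸ hab⟩

theorem phi_empty (hE : ∀ I : Finset (Fin n), I.Nonempty → ∃ J K, E J K ∧ I ⊆ J ∧ ¬ I ⊆ K) :
    Phi.{u} E ∅ := by
  obtain ⟨I, hI, hmin⟩ := (wellFounded_lt (α := Finset (Fin n))).has_min {J | Phi.{u} E J}
    ⟨_, phi_univ⟩
  rcases I.eq_empty_or_nonempty with rfl | hne
  · exact hI
  obtain ⟨J, K, hJK, h1, h2⟩ := hE I hne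
  refine absurd ?_ (hmin (I ∩ K) (phi_inter hI (phi_id hJK (phi_up h1 hI))))
  exact lt_of_le_of_ne Finset.inter_subset_left fun h => h2 (Finset.inter_eq_left.1 h)

/-- Every compatible graph with `m` pairwise adjacent vertices has a loop. -/
def Loop (E : Finset (Fin n) → Finset (Fin n) → Prop) (m : ℕ) : Prop :=
  ∀ (B : Type u) (g : (Fin n → B) → B) (G : B → B → Prop), Mod E g → Gr g G →
    Rich G m Set.univ → ∃ a, G a a

theorem loop_of_phi (h : Phi.{u} E ∅) : ∃ m, Loop.{u} E m := by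
  obtain ⟨m, hm⟩ := h
  refine ⟨m, fun B g G hg hG hR => ?_⟩
  obtain ⟨a, -, b, -, hab⟩ := hm B g G hg hG Set.univ (fun _ _ => Set.mem_univ _) hR
  have : tup (∅ : Finset (Fin n)) b a = fun _ => a := by funext i; simp [tup]
  rw [this, hg.idem] at hab
  exact ⟨a, hab⟩

/-- The relation between two arcs used to enlarge cliques. -/
def Arc {B : Type u} (G : B → B → Prop) (r : ℕ) (p q : B × B) : Prop :=
  G p.1 p.2 ∧ ∃ (y : B) (x : Fin r → B), (∀ i j, i ≠ j → G (x i) (x j)) ∧ G y p.1 ∧ G y q.2 ∧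
    ∀ i, G y (x i) ∧ G (x i) q.1 ∧ G (x i) p.2

theorem loop_down {r : ℕ} (hr : 1 ≤ r) (h : Loop.{u} E (r + 3)) : Loop.{u} E (r + 2) := by
  intro B g G hg hG ⟨k, _, hk⟩
  let g' : (Fin n → B × B) → B × B := fun p => (g fun i => (p i).1, g fun i => (p i).2)
  have ht : ∀ (J : Finset (Fin n)) (b a : B × B), (fun i => (tup J b a i).1) = tup J b.1 a.1 ∧
      (fun i => (tup J b a i).2) = tup J b.2 a.2 := by
    intro J b a
    constructor <;> funext i <;> unfold tup <;> split_ifs <;> rfl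
  have hg' : Mod E g' := ⟨fun a => Prod.ext (hg.idem _) (hg.idem _), fun J K hJK b a => by
    simp only [g', (ht _ b a).1, (ht _ b a).2, hg.ids J K hJK]⟩
  have hA : ∀ p q : Fin n → B × B, (∀ i, Arc G r (p i) (q i)) → Arc G r (g' p) (g' q) := by
    intro p q hpq
    choose h0 y x h1 h2 h3 h4 using hpq
    exact ⟨hG.comp h0, g y, fun l => g fun i => x i l, fun l l' hl => hG.comp fun i => h1 i l l' hl,
      hG.comp h2, hG.comp h3, fun l => ⟨hG.comp fun i => (h4 i l).1,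
        hG.comp fun i => (h4 i l).2.1, hG.comp fun i => (h4 i l).2.2⟩⟩
  have hG' : Gr g' fun p q => Arc G r p q ∧ Arc G r q p :=
    ⟨fun h => h.symm, fun h => ⟨hA _ _ fun i => (h i).1, hA _ _ fun i => (h i).2⟩⟩
  have harc : ∀ a s b t : Fin (r + 2), a ≠ s → b ≠ t → (a, s) ≠ (b, t) →
      Arc G r (k a, k s) (k b, k t) := by
    intro a s b t h1 h2 h3
    obtain ⟨e, he, he'⟩ := avoid r b s
    obtain ⟨γ, hγ, ha, ht⟩ : ∃ γ, (γ = b ∨ γ = s) ∧ γ ≠ a ∧ γ ≠ t := by
      by_cases hb : b = a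
      · exact ⟨s, Or.inr rfl, h1.symm, fun h => h3 (Prod.ext hb.symm h)⟩
      · exact ⟨b, Or.inl rfl, hb, h2⟩
    refine ⟨hk _ _ h1, k γ, fun l => k (e l), fun l l' hl => hk _ _ fun h => hl (he h),
      hk _ _ ha, hk _ _ ht, fun l => ⟨hk _ _ ?_, hk _ _ (he' l).1, hk _ _ (he' l).2⟩⟩
    rcases hγ with rfl | rfl
    exacts [(he' l).1.symm, (he' l).2.symm]
  have hcard : Fintype.card (Fin (r + 3)) ≤ (Finset.univ : Finset (Fin (r + 2))).offDiag.card := by
    rw [Finset.offDiag_card, Finset.card_univ, Fintype.card_fin, Fintype.card_fin]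
    have : (r + 2) * (r + 2) = r * r + 4 * r + 4 := by ring
    omega
  obtain ⟨e, he⟩ := Function.Embedding.exists_of_card_le_finset hcard
  have he' : ∀ l, (e l).1 ≠ (e l).2 := fun l => (Finset.mem_offDiag.1 (he ⟨l, rfl⟩)).2.2
  obtain ⟨p, ⟨h0, y, x, h1, h2, h3, h4⟩, -⟩ := h (B × B) g' _ hg' hG'
    ⟨fun l => (k (e l).1, k (e l).2), fun _ => trivial, fun l l' hl =>
      ⟨harc _ _ _ _ (he' l) (he' l') fun h => hl (e.injective h),
       harc _ _ _ _ (he' l') (he' l) fun h => hl (e.injective h).symm⟩⟩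
  refine h B g G hg hG ⟨Fin.cons p.1 (Fin.cons p.2 (Fin.cons y x)), fun _ => trivial, ?_⟩
  intro i j
  refine Fin.cases ?_ (fun i => Fin.cases ?_ (fun i => Fin.cases ?_ (fun i => ?_) i) i) i <;>
    refine Fin.cases ?_ (fun j => Fin.cases ?_ (fun j => Fin.cases ?_ (fun j => ?_) j) j) j <;>
    simp only [Fin.cons_zero, Fin.cons_succ] <;> intro hij
  all_goals first
    | exact absurd rfl hij
    | exact h0
    | exact hG.symm h0
    | exact h2
    | exact hG.symm h2
    | exact h3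
    | exact hG.symm h3
    | exact (h4 _).1
    | exact hG.symm (h4 _).1
    | exact (h4 _).2.1
    | exact hG.symm (h4 _).2.1
    | exact (h4 _).2.2
    | exact hG.symm (h4 _).2.2
    | exact h1 _ _ fun e => hij (by rw [e])

theorem loop_three (hE : ∀ I : Finset (Fin n), I.Nonempty → ∃ J K, E J K ∧ I ⊆ J ∧ ¬ I ⊆ K) :
    Loop.{u} E 3 := by
  obtain ⟨m, hm⟩ := loop_of_phi (phi_empty.{u} hE)
  have h1 : Loop.{u} E (m + 3) := fun B g G hg hG hR => hm B g G hg hG (hR.mono (by omega) le_rfl)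
  clear hm
  induction m with
  | zero => exact h1
  | succ m ih => exact ih (loop_down (r := m + 1) (by omega) h1)

end Pool.Agent.Lib.MP_71d0e6_al.HM
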