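import Pool.Agent.Lib.MP_71d0e6_al.Restrict
import Pool.Agent.Lib.MP_71d0e6_al.Defs

/-!
The 4-ary pseudo-Siggers identity on finitely many triples.
-/

namespace Pool.Agent.Lib.MP_71d0e6_al

open Classical FirstOrder FirstOrder.Language FirstOrder.Language.Structure

variable {L : Language} {M : Type*} [L.Structure M]

theorem IsPolymorphism.proj {ι : Type} (i : ι) : IsPolymorphism L (fun x : ι → M => x i) :=
  ⟨fun _ _ _ => rfl, fun _ _ _ h => h i⟩

theorem IsPolymorphism.comp {ι κ : Type} {f : (ι → M) → M} {g : ι → (κ → M) → M}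
    (hf : IsPolymorphism L f) (hg : ∀ i, IsPolymorphism L (g i)) :
    IsPolymorphism L (fun x => f (fun i => g i x)) := by
  refine ⟨fun k F x => ?_, fun k R x h => ?_⟩
  · have := hf.1 k F (fun i j => g i (fun l => x l j))
    simp only [(hg _).1 k F x]
    exact this
  · exact hf.2 k R (fun i j => g i (fun l => x l j)) fun i => (hg i).2 k R x h

theorem IsPolymorphism.hom_comp {ι : Type} {f : (ι → M) → M} (hf : IsPolymorphism L f)
    (u : M →[L] M) : IsPolymorphism L (fun x => u (f x)) := by
  refine ⟨fun k F x => ?_, fun k R x h => ?_⟩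
  · simp only [hf.1 k F x]
    exact u.map_fun F _
  · exact u.map_rel R _ (hf.2 k R x h)

/-- The diagonal of a polymorphism is an endomorphism. -/
def IsPolymorphism.diag {ι : Type} {f : (ι → M) → M} (hf : IsPolymorphism L f) : M →[L] M where
  toFun x := f (fun _ => x)
  map_fun' F x := hf.1 _ F (fun _ => x)
  map_rel' R x h := hf.2 _ R (fun _ => x) (fun _ => h)

/-- Automorphisms fixing a set pointwise, as a group of permutations. -/
def stab (L : Language) {M : Type*} [L.Structure M] (C : Set M) : Subgroup (Equiv.Perm M) where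
  carrier := {g | (∃ φ : M ≃[L] M, ∀ x, φ x = g x) ∧ ∀ c ∈ C, g c = c}
  one_mem' := ⟨⟨Language.Equiv.refl L M, fun _ => rfl⟩, fun _ _ => rfl⟩
  mul_mem' := by
    rintro g g' ⟨⟨φ, h1⟩, h2⟩ ⟨⟨φ', h1'⟩, h2'⟩
    refine ⟨⟨φ.comp φ', fun x => ?_⟩, fun c hc => ?_⟩
    · simp [h1, h1']
    · simp [h2 c hc, h2' c hc]
  inv_mem' := by
    rintro g ⟨⟨φ, h1⟩, h2⟩
    refine ⟨⟨φ.symm, fun x => ?_⟩, fun c hc => ?_⟩
    · apply φ.injective
      rw [φ.apply_symm_apply, h1]
      simp
    · rw [Equiv.Perm.inv_eq_iff_eq]
      exact (h2 c hc).symm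

/-- An automorphism fixing `C` as an element of the stabiliser. -/
def toStab {C : Set M} (φ : M ≃[L] M) (h : ∀ c ∈ C, φ c = c) : stab L C :=
  ⟨φ.toEquiv, ⟨φ, fun _ => rfl⟩, h⟩

theorem toStab_smul {C : Set M} (φ : M ≃[L] M) (h : ∀ c ∈ C, φ c = c) {N : Type} (x : N → M)
    (n : N) : (toStab φ h • x) n = φ (x n) := rfl

theorem local_siggers
    (olig : ∀ n : ℕ, ∃ S : Set (Fin n → M), S.Finite ∧
      ∀ x : Fin n → M, ∃ y ∈ S, ∃ g : M ≃[L] M, ∀ i, g (y i) = x i)
    (core : ∀ (f : M →[L] M) (F : Finset M), ∃ g : M ≃[L] M, ∀ x ∈ F, f x = g x)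
    (s : (Fin 6 → M) → M) (u v : M →[L] M) (hs : IsPolymorphism L s)
    (hid : ∀ x y z, u (s ![x, y, x, z, y, z]) = v (s ![y, x, z, x, z, y]))
    (m : ℕ) (r a e : Fin m → M) :
    ∃ (t : (Fin 4 → M) → M) (g : M ≃[L] M), IsPolymorphism L t ∧
      ∀ n, g (t ![r n, a n, r n, e n]) = t ![a n, r n, e n, a n] := by
  have core' : ∀ (f : M →[L] M) (F : Set M), F.Finite → ∃ g : M ≃[L] M, ∀ x ∈ F, f x = g x := by
    intro f F hF
    obtain ⟨g, hg⟩ := core f hF.toFinset
    exact ⟨g, fun x hx => hg x (hF.mem_toFinset.2 hx)⟩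
  set C : Set M := Set.range r ∪ Set.range a ∪ Set.range e with hC
  have hCf : C.Finite := ((Set.finite_range r).union (Set.finite_range a)).union
    (Set.finite_range e)
  have S : Setup (stab L C)
      (fun ι (F : (ι → Fin m → M) → Fin m → M) => ∃ f : (ι → M) → M, IsPolymorphism L f ∧
        (∀ c ∈ C, f (fun _ => c) = c) ∧ F = fun x n => f (fun i => x i n))
      (fun x y => ∃ t : (Fin 4 → M) → M, IsPolymorphism L t ∧
        (∀ n, x n = t ![r n, a n, r n, e n]) ∧ ∀ n, y n = t ![a n, r n, e n, a n]) a r e :=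
    { proj := fun ι _ i => ⟨_, IsPolymorphism.proj i, fun _ _ => rfl, rfl⟩
      comp := by
        rintro ι κ _ _ _ g ⟨f, h1, h2, rfl⟩ hg
        choose g' e1 e2 e3 using hg
        refine ⟨_, h1.comp e1, fun c hc => ?_, ?_⟩
        · simp only [e2 _ c hc, h2 c hc]
        · simp only [e3]
      smul := by
        rintro ⟨g, ⟨φ, h1⟩, h2⟩
        refine ⟨_, (IsPolymorphism.proj ()).hom_comp φ.toHom, fun c hc => (h1 c).trans (h2 c hc),
          ?_⟩
        funext x n
        exact (h1 _).symm
      core := by
        rintro ι _ _ ⟨f, h1, h2, rfl⟩ Φ hΦ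
        obtain ⟨g, hg⟩ := core' h1.diag (C ∪ ⋃ x ∈ Φ, Set.range x)
          (hCf.union (hΦ.biUnion fun x _ => Set.finite_range x))
        refine ⟨toStab g fun c hc => (hg c (Or.inl hc)).symm.trans (h2 c hc), fun x hx => ?_⟩
        funext n
        exact hg (x n) (Or.inr (Set.mem_biUnion hx ⟨n, rfl⟩))
      inv := by
        rintro ι _ _ ⟨f, h1, h2, rfl⟩ x y h
        choose t e1 e2 e3 using h
        exact ⟨_, h1.comp e1, fun n => by simp only [e2], fun n => by simp only [e3]⟩
      fixa := fun g => funext fun n => g.2.2 _ (Or.inl (Or.inr ⟨n, rfl⟩))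
      fixr := fun g => funext fun n => g.2.2 _ (Or.inl (Or.inl ⟨n, rfl⟩))
      fixe := fun g => funext fun n => g.2.2 _ (Or.inr ⟨n, rfl⟩)
      har := ⟨_, IsPolymorphism.proj 1, fun _ => rfl, fun _ => rfl⟩
      hra := ⟨_, IsPolymorphism.proj 0, fun _ => rfl, fun _ => rfl⟩
      hre := ⟨_, IsPolymorphism.proj 2, fun _ => rfl, fun _ => rfl⟩
      hea := ⟨_, IsPolymorphism.proj 3, fun _ => rfl, fun _ => rfl⟩
      fin := by
        have := hCf.to_subtype
        obtain ⟨k, ⟨eq⟩⟩ := Finite.exists_equiv_fin (Fin m ⊕ C)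
        obtain ⟨Z, hZ, h⟩ := olig k
        have := hZ.to_subtype
        choose y hy g hg using h
        refine Finite.of_injective
          (fun o : MulAction.orbitRel.Quotient (stab L C) (Fin m → M) =>
            (⟨y (fun i => Sum.elim o.out Subtype.val (eq.symm i)), hy _⟩ : Z)) fun o o' h => ?_
        have h' := congrArg Subtype.val h
        simp only at h'
        set p : Fin k → M := fun i => Sum.elim o.out Subtype.val (eq.symm i)
        set p' : Fin k → M := fun i => Sum.elim o'.out Subtype.val (eq.symm i)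
        have hp : ∀ i, ((g p).comp (g p').symm) (p' i) = p i := by
          intro i
          rw [Language.Equiv.comp_apply, ← hg p' i, (g p').symm_apply_apply, ← h', hg p i]
        have := (orb_eq_iff (G := stab L C) o.out o'.out).2 ⟨toStab ((g p).comp (g p').symm)
          (fun c hc => by simpa [p, p'] using hp (eq (Sum.inr ⟨c, hc⟩))), funext fun n => by
            rw [toStab_smul]
            simpa [p, p'] using hp (eq (Sum.inl n))⟩
        simpa only [orb, Quotient.out_eq] using this
      sig := by
        obtain ⟨g0, hg0⟩ := core' hs.diag C hCf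
        have key : ∀ x y z : Fin m → M, ∃ g : stab L C,
            g • (fun n => g0.symm (s ![x n, y n, x n, z n, y n, z n])) =
              fun n => g0.symm (s ![y n, x n, z n, x n, z n, y n]) := by
          intro x y z
          obtain ⟨g1, h1⟩ := core' u ((fun c => s fun _ => c) '' C ∪
            Set.range fun n => s ![x n, y n, x n, z n, y n, z n])
            ((hCf.image _).union (Set.finite_range _))
          obtain ⟨g2, h2⟩ := core' v ((fun c => s fun _ => c) '' C ∪
            Set.range fun n => s ![y n, x n, z n, x n, z n, y n])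
            ((hCf.image _).union (Set.finite_range _))
          refine ⟨toStab (g0.symm.comp (g2.symm.comp (g1.comp g0))) fun c hc => ?_,
            funext fun n => ?_⟩
          · have e0 : g0 c = s fun _ => c := (hg0 c hc).symm
            have e1 : (![c, c, c, c, c, c] : Fin 6 → M) = fun _ => c := by
              funext i; fin_cases i <;> rfl
            have e2 := hid c c c
            rw [e1, h1 _ (Or.inl ⟨c, hc, rfl⟩), h2 _ (Or.inl ⟨c, hc, rfl⟩)] at e2
            simp only [Language.Equiv.comp_apply]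
            simp only at e2
            rw [e0, e2, g2.symm_apply_apply, ← e0, g0.symm_apply_apply]
          · have e2 := hid (x n) (y n) (z n)
            rw [h1 _ (Or.inr ⟨n, rfl⟩), h2 _ (Or.inr ⟨n, rfl⟩)] at e2
            rw [toStab_smul]
            simp only [Language.Equiv.comp_apply]
            rw [g0.apply_symm_apply, e2, g2.symm_apply_apply]
        have key' : ∀ x y z : Fin m → M, ∃ g : stab L C,
            g • (fun n => g0.symm (s fun i => (![x, y, x, z, y, z] : Fin 6 → Fin m → M) i n)) =
              fun n => g0.symm (s fun i => (![y, x, z, x, z, y] : Fin 6 → Fin m → M) i n) := by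
          intro x y z
          obtain ⟨g, hg⟩ := key x y z
          refine ⟨g, ?_⟩
          have e1 : ∀ n, (fun i => (![x, y, x, z, y, z] : Fin 6 → Fin m → M) i n) =
              ![x n, y n, x n, z n, y n, z n] := fun n => by
            funext i; fin_cases i <;> rfl
          have e2 : ∀ n, (fun i => (![y, x, z, x, z, y] : Fin 6 → Fin m → M) i n) =
              ![y n, x n, z n, x n, z n, y n] := fun n => by
            funext i; fin_cases i <;> rfl
          simp only [e1, e2]
          exact hg
        refine ⟨Fin 6, inferInstance, _, ⟨_, hs.hom_comp g0.symm.toHom, fun c hc => ?_, rfl⟩,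
          fun i x x' => ?_⟩
        · show g0.symm (hs.diag c) = c
          rw [hg0 c hc, g0.symm_apply_apply]
        · fin_cases i
          · exact ⟨_, _, rfl, rfl, fun j => by fin_cases j <;> simp,
              fun j => by fin_cases j <;> simp, key' x x' x⟩
          · exact ⟨_, _, rfl, rfl, fun j => by fin_cases j <;> simp,
              fun j => by fin_cases j <;> simp, key' x' x x⟩
          · exact ⟨_, _, rfl, rfl, fun j => by fin_cases j <;> simp,
              fun j => by fin_cases j <;> simp, key' x x x'⟩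
          · exact ⟨_, _, rfl, rfl, fun j => by fin_cases j <;> simp,
              fun j => by fin_cases j <;> simp, key' x' x x⟩
          · exact ⟨_, _, rfl, rfl, fun j => by fin_cases j <;> simp,
              fun j => by fin_cases j <;> simp, key' x x x'⟩
          · exact ⟨_, _, rfl, rfl, fun j => by fin_cases j <;> simp,
              fun j => by fin_cases j <;> simp, key' x x' x⟩ }
  obtain ⟨x, ⟨g, ⟨φ, h1⟩, h2⟩, t, ht, e1, e2⟩ := S.loop
  refine ⟨t, φ, ht, fun n => ?_⟩
  rw [← e1 n, ← e2 n, h1]
  rfl

end Pool.Agent.Lib.MP_71d0e6_al
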