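import Mathlib

/-!
Words over a finite alphabet: runs, a colouring by first letter and run length, anchors
(local maxima of the colouring) and the walk through the vertices `a`, `r`, `e` they define.
-/

namespace Pool.Agent.Lib.MP_71d0e6_al

open Classical

noncomputable section

variable {Λ : Type} {B : Type*}

/-- Length of the initial run of equal letters. -/
def run : List Λ → ℕ
  | [] => 0
  | [_] => 1
  | x :: y :: l => if x = y then run (y :: l) + 1 else 1

theorem run_le_length : ∀ l : List Λ, run l ≤ l.length
  | [] => le_rfl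
  | [_] => le_rfl
  | x :: y :: l => by
    have := run_le_length (y :: l)
    simp only [run, List.length_cons] at this ⊢
    split_ifs <;> omega

theorem run_append : ∀ (l v : List Λ), run l < l.length → run (l ++ v) = run l
  | [], _, h => by simp at h
  | [_], _, h => by simp [run] at h
  | x :: y :: l, v, h => by
    have ih := run_append (y :: l) v
    simp only [run, List.length_cons, List.cons_append] at ih h ⊢
    split_ifs with hxy
    · rw [if_pos hxy] at h
      rw [ih (by omega)]
    · rfl

theorem run_replicate (b b' : Λ) (hb : b' ≠ b) (v : List Λ) :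
    ∀ k : ℕ, run (List.replicate (k + 1) b ++ b' :: v) = k + 1
  | 0 => by simp [run, hb.symm]
  | k + 1 => by
    have ih := run_replicate b b' hb v k
    simp only [List.replicate_succ, List.cons_append] at ih ⊢
    simp only [run, if_true]
    rw [ih]

theorem take_of_le_run : ∀ (l : List Λ) (k : ℕ), k + 1 ≤ run l →
    ∃ b, l.take (k + 1) = List.replicate (k + 1) b ∧ l.head? = some b
  | [], _, h => by simp [run] at h
  | [x], k, h => by
    have : k = 0 := by simp only [run] at h; omega
    subst this
    exact ⟨x, by simp, rfl⟩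
  | x :: y :: l, 0, _ => ⟨x, by simp, rfl⟩
  | x :: y :: l, k + 1, h => by
    simp only [run] at h
    split_ifs at h with hxy
    · obtain ⟨b, hb, hh⟩ := take_of_le_run (y :: l) k (by omega)
      have : y = b := by simpa using hh
      subst this
      subst hxy
      refine ⟨x, ?_, rfl⟩
      rw [List.take_succ_cons, hb]
      rfl
    · omega

/-- The word ends with `M` equal letters. -/
def EndsRun (M : ℕ) (w : List Λ) : Prop := ∃ u b, w = u ++ List.replicate M b

/-- The colouring of words. -/
def col (enc : Λ → ℕ) (q k : ℕ) (v : List Λ) : ℕ :=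
  if EndsRun (k + 4) v ∧ v.length = 2 * k + 4 then q * (k + 6) + 1
  else if run v = k + 2 then q * (k + 6)
  else (v.head?.map enc).getD 0 * (k + 6) + min (run v) (k + 5)

theorem col_low (enc : Λ → ℕ) (q k : ℕ) (hq : 0 < q) (henc : ∀ b, enc b < q) (v : List Λ) :
    (v.head?.map enc).getD 0 * (k + 6) + min (run v) (k + 5) < q * (k + 6) := by
  have h1 : (v.head?.map enc).getD 0 + 1 ≤ q := by
    cases v with
    | nil => simpa using Nat.succ_le_of_lt hq
    | cons x l => simpa using henc x
  have h2 := Nat.mul_le_mul_right (k + 6) h1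
  have h3 : min (run v) (k + 5) ≤ k + 5 := min_le_right _ _
  nlinarith

theorem col_le (enc : Λ → ℕ) (q k : ℕ) (hq : 0 < q) (henc : ∀ b, enc b < q) (v : List Λ) :
    col enc q k v ≤ q * (k + 6) + 1 := by
  have := col_low enc q k hq henc v
  unfold col
  split_ifs <;> omega

theorem col_lt_top (enc : Λ → ℕ) (q k : ℕ) (hq : 0 < q) (henc : ∀ b, enc b < q) (v : List Λ)
    (h : v.length ≠ 2 * k + 4) : col enc q k v < q * (k + 6) + 1 := by
  have := col_low enc q k hq henc v
  unfold col
  rw [if_neg (fun h' => h h'.2)]
  split_ifs <;> omega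

theorem col_lt_top2 (enc : Λ → ℕ) (q k : ℕ) (hq : 0 < q) (henc : ∀ b, enc b < q) (v : List Λ)
    (h : v.length ≠ 2 * k + 4) (h' : run v ≠ k + 2) : col enc q k v < q * (k + 6) := by
  have := col_low enc q k hq henc v
  unfold col
  rw [if_neg (fun h' => h h'.2), if_neg h']
  exact this

theorem col_eq_top2 (enc : Λ → ℕ) (q k : ℕ) (v : List Λ)
    (h : v.length ≠ 2 * k + 4) (h' : run v = k + 2) : col enc q k v = q * (k + 6) := by
  unfold col
  rw [if_neg (fun h' => h h'.2), if_pos h']

theorem col_proper (enc : Λ → ℕ) (q k : ℕ) (hq : 0 < q) (henc : ∀ b, enc b < q)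
    (hinj : Function.Injective enc) (x y : Λ) (l : List Λ) (hlen : 2 * k + 4 < (y :: l).length)
    (h1 : run (x :: y :: l) ≤ k + 5) (h2 : run (y :: l) ≤ k + 5) :
    col enc q k (x :: y :: l) ≠ col enc q k (y :: l) := by
  have n1 : (x :: y :: l).length ≠ 2 * k + 4 := by simp only [List.length_cons] at hlen ⊢; omega
  have n2 : (y :: l).length ≠ 2 * k + 4 := by omega
  have hr : run (x :: y :: l) = if x = y then run (y :: l) + 1 else 1 := by simp only [run]
  by_cases a1 : run (x :: y :: l) = k + 2
  · by_cases a2 : run (y :: l) = k + 2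
    · split_ifs at hr <;> omega
    · rw [col_eq_top2 enc q k _ n1 a1]
      exact (col_lt_top2 enc q k hq henc _ n2 a2).ne'
  · by_cases a2 : run (y :: l) = k + 2
    · rw [col_eq_top2 enc q k _ n2 a2]
      exact (col_lt_top2 enc q k hq henc _ n1 a1).ne
    · unfold col
      rw [if_neg (fun h' => n1 h'.2), if_neg a1, if_neg (fun h' => n2 h'.2), if_neg a2,
        min_eq_left h1, min_eq_left h2]
      simp only [List.head?_cons, Option.map_some, Option.getD_some]
      intro h
      by_cases hxy : x = y
      · rw [if_pos hxy] at hr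
        rw [hxy] at h hr
        omega
      · have hne : enc x ≠ enc y := fun h => hxy (hinj h)
        rcases lt_or_gt_of_ne hne with h' | h'
        · have := Nat.mul_le_mul_right (k + 6) (Nat.succ_le_of_lt h')
          simp only [Nat.succ_mul] at this
          omega
        · have := Nat.mul_le_mul_right (k + 6) (Nat.succ_le_of_lt h')
          simp only [Nat.succ_mul] at this
          omega

theorem col_append (enc : Λ → ℕ) (q k : ℕ) (v t : List Λ) (hlen : 2 * k + 6 ≤ v.length)
    (h1 : run v ≤ k + 5) : col enc q k (v ++ t) = col enc q k v := by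
  have hr : run (v ++ t) = run v := run_append v t (by omega)
  have hh : (v ++ t).head? = v.head? := by
    cases v with
    | nil => simp at hlen
    | cons x l => rfl
  unfold col
  rw [if_neg (fun h' => by have := h'.2; simp only [List.length_append] at this; omega),
    if_neg (fun h' : EndsRun (k + 4) v ∧ v.length = 2 * k + 4 => by have := h'.2; omega), hr, hh]

/-- A bounded sequence without two equal neighbours has a local maximum early. -/
theorem exists_local_max (c : ℕ → ℕ) (Q : ℕ) (hb : ∀ j, c j ≤ Q)
    (hp : ∀ j, j ≤ 2 * Q + 3 → c j ≠ c (j + 1)) :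
    ∃ j, j ≤ 2 * Q + 2 ∧ c j < c (j + 1) ∧ c (j + 2) < c (j + 1) := by
  by_contra hno
  push Not at hno
  have h1 : ∃ j, j ≤ Q ∧ c j < c (j + 1) := by
    by_contra h
    push Not at h
    have : ∀ j, j ≤ Q + 1 → c j + j ≤ c 0 := by
      intro j
      induction j with
      | zero => intro _; omega
      | succ j ih =>
        intro hj
        have := ih (by omega)
        have := h j (by omega)
        have := hp j (by omega)
        omega
    have := this (Q + 1) le_rfl
    have := hb 0
    omega
  obtain ⟨j, hj, hlt⟩ := h1
  have : ∀ i, i ≤ Q + 1 → c (j + i) < c (j + i + 1) ∧ i ≤ c (j + i) := by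
    intro i
    induction i with
    | zero => intro _; exact ⟨hlt, Nat.zero_le _⟩
    | succ i ih =>
      intro hi
      obtain ⟨a1, a2⟩ := ih (by omega)
      have a3 := hno (j + i) (by omega) a1
      have a4 := hp (j + i + 1) (by omega)
      refine ⟨?_, ?_⟩
      · show c (j + i + 1) < c (j + i + 2)
        have a5 : c (j + i + 1 + 1) = c (j + i + 2) := rfl
        omega
      · show i + 1 ≤ c (j + i + 1)
        omega
  have := (this (Q + 1) le_rfl).2
  have := hb (j + (Q + 1))
  omega

/-- Anchors: local maxima of a colouring. -/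
def Anc (c : List Λ → ℕ) (v : List Λ) : Prop :=
  c v < c (v.drop 1) ∧ c (v.drop 2) < c (v.drop 1)

theorem anc_not_adj (c : List Λ → ℕ) (v : List Λ) (h : Anc c v) : ¬ Anc c (v.drop 1) := by
  intro h'
  have h1 := h.2
  have h2 := h'.1
  simp only [List.drop_drop, Nat.reduceAdd] at h2
  omega

/-- Distance to the next anchor. -/
def dist (P : List Λ → Prop) : List Λ → ℕ
  | [] => 0
  | x :: l => if P (x :: l) then 0 else dist P l + 1

theorem dist_eq_zero (P : List Λ → Prop) (v : List Λ) (h : P v) : dist P v = 0 := by
  cases v with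
  | nil => rfl
  | cons x l => simp [dist, h]

theorem dist_append (P : List Λ → Prop) (t : List Λ) : ∀ (j : ℕ) (v : List Λ), j < v.length →
    P (v.drop j) → (∀ i, i ≤ j → (P (v.drop i ++ t) ↔ P (v.drop i))) →
    dist P (v ++ t) = dist P v
  | _, [], h, _, _ => by simp at h
  | 0, x :: l, _, h1, h2 => by
    exact (dist_eq_zero P _ ((h2 0 le_rfl).2 h1)).trans (dist_eq_zero P _ h1).symm
  | j + 1, x :: l, h, h1, h2 => by
    have ih := dist_append P t j l (by simpa using h) h1 (fun i hi => h2 (i + 1) (by omega))
    have h0 : P (x :: (l ++ t)) ↔ P (x :: l) := h2 0 (by omega)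
    simp only [List.cons_append, dist, ih, h0]

/-- The vertex attached to a word. -/
def vert (P : List Λ → Prop) (a r e : B) (v : List Λ) : B :=
  if P (v.drop 2) then a else if P (v.drop 1) then r
  else if Even (dist P (v.drop 2)) then a else if P v then e else r

theorem vert_mem (P : List Λ → Prop) (a r e : B) (v : List Λ) :
    vert P a r e v = a ∨ vert P a r e v = r ∨ vert P a r e v = e := by
  unfold vert
  split_ifs <;> simp

theorem vert_step (c : List Λ → ℕ) (H : B → B → Prop) (a r e : B) (har : H a r) (hra : H r a)
    (hre : H r e) (hea : H e a) (v : List Λ) (hv : 3 ≤ v.length) :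
    H (vert (Anc c) a r e v) (vert (Anc c) a r e v.tail) := by
  obtain ⟨x, y, z, l, rfl⟩ : ∃ x y z l, v = x :: y :: z :: l := by
    match v, hv with
    | x :: y :: z :: l, _ => exact ⟨x, y, z, l, rfl⟩
  have n1 : Anc c (z :: l) → ¬ Anc c l := anc_not_adj c (z :: l)
  have d0 : Anc c l → dist (Anc c) l = 0 := dist_eq_zero _ l
  simp only [vert, List.tail_cons, List.drop_succ_cons, List.drop_zero, dist]
  by_cases p0 : Anc c (z :: l)
  · simp only [p0, n1 p0, if_true, if_false]
    exact har
  · by_cases p1 : Anc c (y :: z :: l)
    · simp only [p0, p1, if_true, if_false]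
      split_ifs <;> assumption
    · simp only [p0, p1, if_false]
      by_cases p2 : Even (dist (Anc c) l)
      · have p3 : ¬ Even (dist (Anc c) l + 1) := by
          rw [Nat.even_add_one]; exact not_not.2 p2
        simp only [p2, p3, if_true, if_false]
        split_ifs <;> assumption
      · have p3 : Even (dist (Anc c) l + 1) := by
          rw [Nat.even_add_one]; exact p2
        have p4 : ¬ Anc c l := fun h => p2 (by rw [d0 h]; exact Even.zero)
        simp only [p2, p3, p4, if_true, if_false]
        exact har

/-- Far from the end of a word without long runs, the vertex does not see the last letter. -/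
theorem vert_append (enc : Λ → ℕ) (q k : ℕ) (hq : 0 < q) (henc : ∀ b, enc b < q)
    (hinj : Function.Injective enc) (a r e : B) (v t : List Λ)
    (hlen : 2 * (q * (k + 6) + 1) + 2 * k + 20 ≤ v.length)
    (hrun : ∀ j, run (v.drop j) ≤ k + 5) :
    vert (Anc (col enc q k)) a r e (v ++ t) = vert (Anc (col enc q k)) a r e v := by
  set Q := q * (k + 6) + 1 with hQ
  have hc : ∀ j, j ≤ 2 * Q + 8 → col enc q k ((v ++ t).drop j) = col enc q k (v.drop j) := by
    intro j hj
    rw [List.drop_append_of_le_length (by omega)]
    exact col_append enc q k _ t (by rw [List.length_drop]; omega) (hrun j)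
  have hA : ∀ j, j ≤ 2 * Q + 6 →
      (Anc (col enc q k) ((v ++ t).drop j) ↔ Anc (col enc q k) (v.drop j)) := by
    intro j hj
    unfold Anc
    simp only [List.drop_drop]
    rw [hc j (by omega), hc (j + 1) (by omega), hc (j + 2) (by omega)]
  obtain ⟨j, hj, hj1, hj2⟩ := exists_local_max (fun j => col enc q k (v.drop (2 + j))) Q
    (fun j => col_le enc q k hq henc _) (by
      intro j hj
      have h3 : 2 + j + 1 < v.length := by omega
      have h2 : 2 + j < v.length := by omega
      have e2 : v.drop (2 + j + 1) = v[2 + j + 1] :: v.drop (2 + j + 1 + 1) :=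
        List.drop_eq_getElem_cons h3
      have e1 : v.drop (2 + j) = v[2 + j] :: v[2 + j + 1] :: v.drop (2 + j + 1 + 1) := by
        rw [← e2]; exact List.drop_eq_getElem_cons h2
      show col enc q k (v.drop (2 + j)) ≠ col enc q k (v.drop (2 + j + 1))
      have r1 := hrun (2 + j)
      have r2 := hrun (2 + j + 1)
      have r3 : 2 * k + 4 < (v.drop (2 + j + 1)).length := by rw [List.length_drop]; omega
      rw [e1] at r1 ⊢
      rw [e2] at r2 r3 ⊢
      exact col_proper enc q k hq henc hinj _ _ _ r3 r1 r2)
  have hd : dist (Anc (col enc q k)) ((v ++ t).drop 2) = dist (Anc (col enc q k)) (v.drop 2) := by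
    rw [List.drop_append_of_le_length (by omega)]
    refine dist_append _ t j (v.drop 2) (by rw [List.length_drop]; omega) ?_ ?_
    · unfold Anc
      simp only [List.drop_drop]
      exact ⟨hj1, hj2⟩
    · intro i hi
      have := hA (2 + i) (by omega)
      rw [List.drop_append_of_le_length (by omega)] at this
      simpa only [List.drop_drop] using this
  have h0 := hA 0 (by omega)
  simp only [List.drop_zero] at h0
  unfold vert
  rw [hd]
  simp only [hA 2 (by omega), hA 1 (by omega), h0]

/-- The forced anchor before a final long run. -/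
theorem vert_before (enc : Λ → ℕ) (q k : ℕ) (hq : 0 < q) (henc : ∀ b, enc b < q) (a r e : B)
    (w : List Λ) (hw : EndsRun (k + 4) w) (hlen : w.length = 2 * k + 7) :
    vert (Anc (col enc q k)) a r e w = a := by
  have h3 : col enc q k (w.drop 3) = q * (k + 6) + 1 := by
    unfold col
    rw [if_pos]
    refine ⟨?_, by rw [List.length_drop]; omega⟩
    obtain ⟨u, b, rfl⟩ := hw
    refine ⟨u.drop 3, b, ?_⟩
    rw [List.drop_append_of_le_length]
    simp only [List.length_append, List.length_replicate] at hlen
    omega
  unfold vert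
  rw [if_pos]
  unfold Anc
  simp only [List.drop_drop]
  rw [h3]
  exact ⟨col_lt_top enc q k hq henc _ (by rw [List.length_drop]; omega),
    col_lt_top enc q k hq henc _ (by rw [List.length_drop]; omega)⟩

/-- The forced anchor inside an initial long run. -/
theorem vert_after (enc : Λ → ℕ) (q k : ℕ) (hq : 0 < q) (henc : ∀ b, enc b < q) (a r e : B)
    (b b' : Λ) (hb : b' ≠ b) (v : List Λ)
    (hlen : 2 * k + 8 ≤ (List.replicate (k + 4) b ++ b' :: v).length) :
    vert (Anc (col enc q k)) a r e (List.replicate (k + 4) b ++ b' :: v) = r := by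
  set w := List.replicate (k + 4) b ++ b' :: v with hw
  have d1 : w.drop 1 = List.replicate (k + 2 + 1) b ++ b' :: v := by
    simp [hw, List.replicate_succ]
  have d2 : w.drop 2 = List.replicate (k + 1 + 1) b ++ b' :: v := by
    simp [hw, List.replicate_succ]
  have d3 : w.drop 3 = List.replicate (k + 1) b ++ b' :: v := by
    simp [hw, List.replicate_succ]
  have hA : Anc (col enc q k) (w.drop 1) := by
    unfold Anc
    simp only [List.drop_drop]
    rw [col_eq_top2 enc q k (w.drop (1 + 1)) (by rw [List.length_drop]; omega)
      (by rw [show 1 + 1 = 2 from rfl, d2, run_replicate b b' hb])]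
    refine ⟨col_lt_top2 enc q k hq henc _ (by rw [List.length_drop]; omega) ?_,
      col_lt_top2 enc q k hq henc _ (by rw [List.length_drop]; omega) ?_⟩
    · rw [d1, run_replicate b b' hb]; omega
    · rw [show 1 + 2 = 3 from rfl, d3, run_replicate b b' hb]; omega
  have hB := anc_not_adj _ _ hA
  simp only [List.drop_drop] at hB
  unfold vert
  rw [if_neg hB, if_pos hA]

end

end Pool.Agent.Lib.MP_71d0e6_al
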