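import Pool.Agent.Lib.MP_71d0e6_al.Tree

/-!
Abstract core clones with finitely many orbits: homogenisation, merging of all orbits along
every leaf of a stack of operations, and the pseudo-loop in a strongly connected digraph.
-/

namespace Pool.Agent.Lib.MP_71d0e6_al

open Classical Filter

noncomputable section

variable {G : Type*} {B : Type*} [Group G] [MulAction G B]

/-- The orbit of a point. -/
def orb (G : Type*) [Group G] [MulAction G B] (x : B) : MulAction.orbitRel.Quotient G B :=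
  Quotient.mk _ x

theorem orb_eq_iff (x y : B) : orb G x = orb G y ↔ ∃ g : G, g • y = x := by
  unfold orb
  rw [Quotient.eq]
  exact Iff.rfl

theorem orb_smul (g : G) (x : B) : orb G (g • x) = orb G x := (orb_eq_iff _ _).2 ⟨g, rfl⟩

/-- A clone of finitary operations that contains a group, is a core, preserves a digraph
with three fixed vertices, and has a position-wise pseudo-Taylor operation. -/
structure Setup (G : Type*) {B : Type*} [Group G] [MulAction G B]
    (Op : ∀ ι : Type, ((ι → B) → B) → Prop) (H : B → B → Prop) (a r e : B) : Prop where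
  proj : ∀ (ι : Type) [Finite ι] (i : ι), Op ι (fun x => x i)
  comp : ∀ (ι κ : Type) [Finite ι] [Finite κ] (f : (ι → B) → B) (g : ι → (κ → B) → B),
    Op ι f → (∀ i, Op κ (g i)) → Op κ (fun x => f (fun i => g i x))
  smul : ∀ g : G, Op Unit (fun x => g • x ())
  core : ∀ (ι : Type) [Finite ι] (f : (ι → B) → B), Op ι f → ∀ F : Set B, F.Finite →
    ∃ g : G, ∀ x ∈ F, f (fun _ => x) = g • x
  inv : ∀ (ι : Type) [Finite ι] (f : (ι → B) → B), Op ι f →
    ∀ x y, (∀ i, H (x i) (y i)) → H (f x) (f y)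
  fixa : ∀ g : G, g • a = a
  fixr : ∀ g : G, g • r = r
  fixe : ∀ g : G, g • e = e
  har : H a r
  hra : H r a
  hre : H r e
  hea : H e a
  fin : Finite (MulAction.orbitRel.Quotient G B)
  sig : ∃ (ι : Type) (_ : Finite ι) (s : (ι → B) → B), Op ι s ∧ ∀ (i : ι) (x x' : B),
    ∃ α α' : ι → B, α i = x ∧ α' i = x' ∧ (∀ j, α j = x ∨ α j = x') ∧
      (∀ j, α' j = x ∨ α' j = x') ∧ ∃ g : G, g • s α = s α'

variable {Op : ∀ ι : Type, ((ι → B) → B) → Prop} {H : B → B → Prop} {a r e : B}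

theorem Setup.smul_op (S : Setup G Op H a r e) {ι : Type} [Finite ι] {f : (ι → B) → B}
    (hf : Op ι f) (g : G) : Op ι (fun x => g • f x) :=
  S.comp Unit ι (fun x => g • x ()) (fun _ => f) (S.smul g) (fun _ => hf)

theorem Setup.twist (S : Setup G Op H a r e) {ι : Type} [Finite ι] {f : (ι → B) → B}
    (hf : Op ι f) (θ : ι → G) : Op ι (fun x => f (fun i => θ i • x i)) :=
  S.comp ι ι f (fun i x => θ i • x i) hf (fun i => S.smul_op (S.proj ι i) (θ i))

theorem Setup.star (S : Setup G Op H a r e) {ι κ : Type} [Finite ι] [Finite κ]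
    {f : (ι → B) → B} {g : (κ → B) → B} (hf : Op ι f) (hg : Op κ g) :
    Op (ι × κ) (fun x => f (fun i => g (fun j => x (i, j)))) :=
  S.comp ι (ι × κ) f (fun i x => g (fun j => x (i, j))) hf (fun i =>
    S.comp κ (ι × κ) g (fun j x => x (i, j)) hg (fun j => S.proj (ι × κ) (i, j)))

theorem Setup.diag (S : Setup G Op H a r e) {ι : Type} [Finite ι] {f : (ι → B) → B}
    (hf : Op ι f) (x : B) : ∃ g : G, f (fun _ => x) = g • x := by
  obtain ⟨g, hg⟩ := S.core ι f hf {x} (Set.finite_singleton x)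
  exact ⟨g, hg x rfl⟩

theorem Setup.orb_diag (S : Setup G Op H a r e) {ι : Type} [Finite ι] {f : (ι → B) → B}
    (hf : Op ι f) (x : B) : orb G (f (fun _ => x)) = orb G x := by
  obtain ⟨g, hg⟩ := S.diag hf x
  rw [hg, orb_smul]

theorem Setup.idem (S : Setup G Op H a r e) {ι : Type} [Finite ι] {f : (ι → B) → B}
    (hf : Op ι f) {x : B} (hx : ∀ g : G, g • x = x) : f (fun _ => x) = x := by
  obtain ⟨g, hg⟩ := S.diag hf x
  rw [hg, hx]

theorem Setup.smul_edge (S : Setup G Op H a r e) (g : G) {x y : B} (h : H x y) :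
    H (g • x) (g • y) :=
  S.inv Unit _ (S.smul g) (fun _ => x) (fun _ => y) (fun _ => h)

/-- Pairs (point of `Φ` at position `i`, orbit of the value). -/
def reach (G : Type*) [Group G] [MulAction G B] (Φ : Set B) {ι : Type} (t : (ι → B) → B) (i : ι) :
    Set (B × MulAction.orbitRel.Quotient G B) :=
  {p | p.1 ∈ Φ ∧ ∃ α : ι → B, α i = p.1 ∧ orb G (t α) = p.2}

theorem Setup.product (S : Setup G Op H a r e) {Φ : Set B} (hΦ : Φ.Finite) {ι κ : Type}
    [Finite ι] [Finite κ] {t : (ι → B) → B} {t' : (κ → B) → B} (ht : Op ι t) (ht' : Op κ t') :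
    ∃ t'' : (ι × κ → B) → B, Op (ι × κ) t'' ∧ ∀ i j, reach G Φ t i ⊆ reach G Φ t'' (i, j) ∧
      reach G Φ t' j ⊆ reach G Φ t'' (i, j) := by
  have := S.fin
  have := hΦ.to_subtype
  have hw : ∀ (i : ι) (y : Φ) (o : MulAction.orbitRel.Quotient G B), ∃ α : ι → B,
      ((y : B), o) ∈ reach G Φ t i → α i = y ∧ orb G (t α) = o := by
    intro i y o
    by_cases h : ((y : B), o) ∈ reach G Φ t i
    · obtain ⟨α, hα⟩ := h.2
      exact ⟨α, fun _ => hα⟩
    · exact ⟨fun _ => a, fun h' => absurd h' h⟩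
  choose w hw using hw
  obtain ⟨g, hg⟩ := S.core κ t' ht'
    (Set.range fun p : ι × Φ × MulAction.orbitRel.Quotient G B × ι => w p.1 p.2.1 p.2.2.1 p.2.2.2)
    (Set.finite_range _)
  refine ⟨_, S.star ht (S.smul_op ht' g⁻¹), fun i j => ⟨?_, ?_⟩⟩
  · rintro ⟨y, o⟩ h
    obtain ⟨h1, h2⟩ := hw i ⟨y, h.1⟩ o h
    refine ⟨h.1, fun p => w i ⟨y, h.1⟩ o p.1, h1, ?_⟩
    have : (fun i' => g⁻¹ • t' (fun _ => w i ⟨y, h.1⟩ o i')) = w i ⟨y, h.1⟩ o := by
      funext i'
      rw [hg _ ⟨(i, ⟨y, h.1⟩, o, i'), rfl⟩, inv_smul_smul]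
    simp only [this]
    exact h2
  · rintro ⟨y, o⟩ ⟨h1, β, h2, h3⟩
    refine ⟨h1, fun p => β p.2, h2, ?_⟩
    simp only
    rw [S.orb_diag ht, orb_smul]
    exact h3

/-- Homogenisation: at every position, any two orbits can be sent to a common orbit from all
their points in a given finite set. -/
theorem Setup.homog (S : Setup G Op H a r e) {Φ : Set B} (hΦ : Φ.Finite) :
    ∃ (ι : Type) (_ : Finite ι) (t : (ι → B) → B), Op ι t ∧ ∀ (i : ι) (x x' : B),
      ∃ o : MulAction.orbitRel.Quotient G B, ∀ y ∈ Φ,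
        (orb G y = orb G x ∨ orb G y = orb G x') → ∃ α : ι → B, α i = y ∧ orb G (t α) = o := by
  have := S.fin
  let Av : Set (B × MulAction.orbitRel.Quotient G B) → Prop := fun N =>
    ∃ (ι : Type) (_ : Finite ι) (t : (ι → B) → B), Op ι t ∧ ∀ i, ¬ reach G Φ t i ⊆ N
  have key : ∀ 𝒩 : Set (Set (B × MulAction.orbitRel.Quotient G B)), 𝒩.Finite →
      ∃ (ι : Type) (_ : Finite ι) (t : (ι → B) → B), Op ι t ∧
        ∀ i, ∀ N ∈ 𝒩, Av N → ¬ reach G Φ t i ⊆ N := by
    intro 𝒩 h𝒩
    induction 𝒩, h𝒩 using Set.Finite.induction_on with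
    | empty => exact ⟨Unit, inferInstance, _, S.proj Unit (), fun _ _ h => absurd h (by simp)⟩
    | @insert N 𝒩 _ _ ih =>
      obtain ⟨ι, hι, t, ht, h⟩ := ih
      by_cases hN : Av N
      · obtain ⟨κ, hκ, t', ht', h'⟩ := hN
        obtain ⟨t'', h1, h2⟩ := S.product hΦ ht ht'
        refine ⟨ι × κ, inferInstance, t'', h1, ?_⟩
        rintro ⟨i, j⟩ N' hN' hA hsub
        rcases hN' with rfl | hN'
        · exact h' j ((h2 i j).2.trans hsub)
        · exact h i N' hN' hA ((h2 i j).1.trans hsub)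
      · refine ⟨ι, hι, t, ht, fun i N' hN' hA => ?_⟩
        rcases hN' with rfl | hN'
        · exact absurd hA hN
        · exact h i N' hN' hA
  obtain ⟨ι, hι, t, ht, h⟩ := key {N | N ⊆ Φ ×ˢ Set.univ}
    (hΦ.prod Set.finite_univ).finite_subsets
  refine ⟨ι, hι, t, ht, fun i x x' => ?_⟩
  have hun : ¬ Av (reach G Φ t i) := fun hA =>
    h i _ (fun p hp => ⟨hp.1, Set.mem_univ _⟩) hA subset_rfl
  obtain ⟨κ, hκ, s, hs, hsig⟩ := S.sig
  have hpos : ∃ j : κ, ∀ (θ : G) (y : B), y ∈ Φ → ∀ α : κ → B, α j = θ • y →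
      (y, orb G (s α)) ∈ reach G Φ t i := by
    by_contra hno
    push Not at hno
    choose θ y hy α hα hn using hno
    refine hun ⟨κ, hκ, _, S.twist hs θ, fun j hsub => hn j (hsub ⟨hy j, fun l => (θ l)⁻¹ • α j l,
      ?_, ?_⟩)⟩
    · simp only [hα j, inv_smul_smul]
    · simp only [smul_inv_smul]
  obtain ⟨j, hj⟩ := hpos
  obtain ⟨α, α', h1, h2, -, -, g, hg⟩ := hsig j x x'
  refine ⟨orb G (s α), fun y hy hor => ?_⟩
  rcases hor with hor | hor
  · obtain ⟨θ, hθ⟩ := (orb_eq_iff _ _).1 hor.symm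
    exact (hj θ y hy α (h1.trans hθ.symm)).2
  · obtain ⟨θ, hθ⟩ := (orb_eq_iff _ _).1 hor.symm
    have := (hj θ y hy α' (h2.trans hθ.symm)).2
    rwa [← hg, orb_smul] at this

/-- Chains of unary maps, consecutive maps sending edges to edges. -/
def Chain (H : B → B → Prop) : ℕ → (B → B) → (B → B) → Prop
  | 0, φ, ψ => φ = ψ
  | n + 1, φ, ψ => ∃ φ', (∀ x y, H x y → H (φ x) (φ' y)) ∧ Chain H n φ' ψ

theorem chain_id (H : B → B → Prop) : ∀ n, Chain H n (fun x => x) (fun x => x)
  | 0 => rfl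
  | n + 1 => ⟨_, fun _ _ h => h, chain_id H n⟩

theorem chain_update (H : B → B → Prop) {ι : Type} (t : (ι → B) → B)
    (ht : ∀ x y, (∀ i, H (x i) (y i)) → H (t x) (t y)) (i : ι) (a : B) :
    ∀ (n : ℕ) (φ ψ : B → B) (α : ι → B), Chain H n φ ψ → (∀ j, Walk H n (α j) a) →
      Chain H n (fun w => t (Function.update α i (φ w)))
        (fun w => t (Function.update (fun _ => a) i (ψ w)))
  | 0, φ, ψ, α, h, hw => by
    have h1 : φ = ψ := h
    have h2 : α = fun _ => a := funext hw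
    rw [h1, h2]
    rfl
  | n + 1, φ, ψ, α, ⟨φ', h1, h2⟩, hw => by
    choose α' e1 e2 using hw
    refine ⟨_, fun x y hxy => ht _ _ fun j => ?_, chain_update H t ht i a n φ' ψ α' h2 e2⟩
    by_cases hj : j = i
    · subst hj
      simpa using h1 x y hxy
    · simpa [hj] using e1 j

theorem chain_end (H : B → B → Prop) (β : B → B) (hβ : ∀ x y, H x y → H (β x) (β y)) :
    ∀ (n : ℕ) (φ ψ : B → B) (c : B), Chain H n φ ψ → H c (φ (β c)) → ∃ c', H c' (ψ (β c'))
  | 0, _, _, c, h, hc => ⟨c, by cases h; exact hc⟩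
  | n + 1, φ, ψ, c, ⟨φ', h1, h2⟩, hc =>
    chain_end H β hβ n φ' ψ (φ (β c)) h2 (h1 _ _ (hβ _ _ hc))

/-- Merging of orbits along every leaf. -/
theorem Setup.merge (S : Setup G Op H a r e) (conn : ∀ x, ∀ᶠ n in atTop, Walk H n x a)
    (P : Finset (MulAction.orbitRel.Quotient G B)) :
    ∃ (ι : Type) (_ : Finite ι) (T : (ι → B) → B), Op ι T ∧ ∀ b : ι,
      ∃ φ : MulAction.orbitRel.Quotient G B → B → B,
        (∀ o, ∀ᶠ n in atTop, Chain H n (φ o) (fun y => T (Function.update (fun _ => a) b y))) ∧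
        ∀ o ∈ P, ∀ o' ∈ P, orb G (φ o o.out) = orb G (φ o' o'.out) := by
  have := S.fin
  induction P using Finset.induction_on with
  | empty =>
    refine ⟨Unit, inferInstance, _, S.proj Unit (), fun b => ⟨fun _ x => x, fun o => ?_, by simp⟩⟩
    refine Eventually.of_forall fun n => ?_
    simpa using chain_id H n
  | @insert p P _ ih =>
    obtain ⟨ι, hι, T, hT, h⟩ := ih
    choose φ hφ1 hφ2 using h
    obtain ⟨κ, hκ, t, ht, hh⟩ := S.homog
      (Set.finite_range fun x : ι × MulAction.orbitRel.Quotient G B => φ x.1 x.2 x.2.out)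
    refine ⟨κ × ι, inferInstance, _, S.star ht hT, ?_⟩
    rintro ⟨i, b⟩
    obtain ⟨p', hp'⟩ : ∃ p' : MulAction.orbitRel.Quotient G B,
        ∀ o ∈ P, orb G (φ b o o.out) = orb G (φ b p' p'.out) := by
      rcases P.eq_empty_or_nonempty with rfl | ⟨p', hp'⟩
      · exact ⟨p, by simp⟩
      · exact ⟨p', fun o ho => hφ2 b o ho p' hp'⟩
    obtain ⟨o', ho'⟩ := hh i (φ b p p.out) (φ b p' p'.out)
    have hrow : ∀ o : MulAction.orbitRel.Quotient G B, ∃ α : κ → B, α i = φ b o o.out ∧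
        (o ∈ insert p P → orb G (t α) = o') := by
      intro o
      by_cases ho : o ∈ insert p P
      · obtain ⟨α, h1, h2⟩ := ho' (φ b o o.out) ⟨(b, o), rfl⟩ (by
          rcases Finset.mem_insert.1 ho with rfl | ho
          · exact Or.inl rfl
          · exact Or.inr (hp' o ho))
        exact ⟨α, h1, fun _ => h2⟩
      · exact ⟨fun _ => φ b o o.out, rfl, fun h => absurd h ho⟩
    choose α hα1 hα2 using hrow
    refine ⟨fun o w => t (Function.update (α o) i (φ b o w)), fun o => ?_, fun o ho o'' ho'' => ?_⟩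
    · have hw : ∀ᶠ n in atTop, ∀ j, Walk H n (α o j) a := eventually_all.2 fun j => conn _
      filter_upwards [hw, hφ1 b o] with n h1 h2
      have := chain_update H t (S.inv κ t ht) i a n _ _ (α o) h2 h1
      convert this using 3 with y
      funext j
      by_cases hj : j = i
      · subst hj
        rw [Function.update_self]
        congr 1
        funext b'
        by_cases hb : b' = b
        · subst hb; simp
        · simp [hb]
      · rw [Function.update_of_ne hj]
        refine Eq.trans (congrArg T (funext fun b' => ?_)) (S.idem hT S.fixa)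
        simp [hj]
    · simp only
      rw [← hα1 o, ← hα1 o'', Function.update_eq_self, Function.update_eq_self, hα2 o ho,
        hα2 o'' ho'']

/-- The pseudo-loop in the strongly connected case. -/
theorem Setup.loop_of_conn (S : Setup G Op H a r e) (conn : ∀ x, ∀ᶠ n in atTop, Walk H n x a)
    (conn' : ∀ x, ∀ᶠ n in atTop, Walk H n a x) : ∃ (x : B) (g : G), H x (g • x) := by
  have := S.fin
  have := Fintype.ofFinite (MulAction.orbitRel.Quotient G B)
  obtain ⟨ι, hι, T, hT, h⟩ := S.merge conn Finset.univ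
  have hin : ∀ y : B, ∃ c, H c y := by
    intro y
    obtain ⟨n, hn, hn1⟩ := ((conn' y).and (eventually_ge_atTop 1)).exists
    obtain ⟨f, -, f2, f3⟩ := hn.seq
    exact ⟨f 1, f2 ▸ f3 0 hn1⟩
  have hsp : ∀ b : ι, ∃ (β : G) (W : B), ∀ x : ι → B, x b = β • W →
      (∀ b', b' ≠ b → H a (x b')) → H W (T x) := by
    intro b
    obtain ⟨φ, hφ1, hφ2⟩ := h b
    obtain ⟨c, hc⟩ := hin (φ (orb G a) (orb G a).out)
    obtain ⟨θ, hθ⟩ := (orb_eq_iff _ _).1
      (hφ2 (orb G c) (Finset.mem_univ _) (orb G a) (Finset.mem_univ _))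
    have hc' := S.smul_edge θ hc
    rw [hθ] at hc'
    obtain ⟨β, hβ⟩ := (orb_eq_iff (G := G) (orb G c).out (θ • c)).1 (by
      rw [orb_smul]; exact Quotient.out_eq _)
    obtain ⟨n, hn⟩ := (hφ1 (orb G c)).exists
    obtain ⟨c', h'⟩ := chain_end H (fun x => β • x) (fun x y => S.smul_edge β) n _ _ (θ • c) hn
      (by simpa only [hβ] using hc')
    refine ⟨β, _, fun x hx hx' => S.inv ι T hT (Function.update (fun _ => a) b (β • c')) x
      fun b' => ?_⟩
    by_cases hb : b' = b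
    · subst hb
      rw [Function.update_self, hx]
      exact S.smul_edge β h'
    · rw [Function.update_of_ne hb]
      exact hx' b' hb
  choose β W hW using hsp
  have hT' := S.twist hT β
  obtain ⟨k, hk⟩ := ((tendsto_add_atTop_nat 2).eventually
    (eventually_all.2 fun b => conn' (W b))).exists
  obtain ⟨Y, hY⟩ := local_loop H a r e S.har S.hra S.hre S.hea _ (S.inv ι _ hT')
    (S.idem hT' S.fixa) (S.idem hT' S.fixr) (S.idem hT' S.fixe) W k hk (by
      intro b x hx hx'
      refine hW b _ (by simp only [hx]) fun b' hb' => ?_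
      have := S.smul_edge (β b') (hx' b' hb')
      rwa [S.fixa] at this)
  obtain ⟨g, hg⟩ := S.diag hT' Y
  exact ⟨Y, g, hg ▸ hY⟩

end

end Pool.Agent.Lib.MP_71d0e6_al
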