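import Pool.Agent.Lib.MP_71d0e6_al.Merge

/-!
Restriction to the strong component of `a`, and the abstract pseudo-loop theorem.
-/

namespace Pool.Agent.Lib.MP_71d0e6_al

open Classical Filter

noncomputable section

variable {G : Type*} {B : Type*} [Group G] [MulAction G B]
variable {Op : ∀ ι : Type, ((ι → B) → B) → Prop} {H : B → B → Prop} {a r e : B}

theorem walk_closed (har : H a r) (hra : H r a) (hre : H r e) (hea : H e a) :
    ∀ n, Walk H (n + 2) a a
  | 0 => ⟨r, har, a, hra, rfl⟩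
  | 1 => ⟨r, har, e, hre, a, hea, rfl⟩
  | n + 2 => ⟨r, har, a, hra, walk_closed har hra hre hea n⟩

theorem walk_inv {ι : Type} (f : (ι → B) → B)
    (hf : ∀ x y, (∀ i, H (x i) (y i)) → H (f x) (f y)) :
    ∀ (n : ℕ) (x y : ι → B), (∀ i, Walk H n (x i) (y i)) → Walk H n (f x) (f y)
  | 0, x, y, h => by
    have : x = y := funext h
    rw [this]
    rfl
  | n + 1, x, y, h => by
    choose z h1 h2 using h
    exact ⟨f z, hf _ _ h1, walk_inv f hf n z y h2⟩

/-- The strong component of `a`. -/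
def Comp (H : B → B → Prop) (a x : B) : Prop := (∃ n, Walk H n a x) ∧ ∃ n, Walk H n x a

theorem Setup.comp_eventually (S : Setup G Op H a r e) {x : B} (hx : Comp H a x) :
    ∀ᶠ n in atTop, Walk H n a x ∧ Walk H n x a := by
  obtain ⟨⟨m, hm⟩, m', hm'⟩ := hx
  filter_upwards [eventually_ge_atTop (m + m' + 2)] with n hn
  have h1 := (walk_closed S.har S.hra S.hre S.hea (n - m - 2)).append hm
  have h2 := hm'.append (walk_closed S.har S.hra S.hre S.hea (n - m' - 2))
  rw [show m + (n - m - 2 + 2) = n by omega] at h1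
  rw [show n - m' - 2 + 2 + m' = n by omega] at h2
  exact ⟨h1, h2⟩

theorem Setup.comp_inv (S : Setup G Op H a r e) {ι : Type} [Finite ι] {f : (ι → B) → B}
    (hf : Op ι f) (x : ι → B) (hx : ∀ i, Comp H a (x i)) : Comp H a (f x) := by
  obtain ⟨n, hn⟩ := (eventually_all.2 fun i => S.comp_eventually (hx i)).exists
  have h1 := walk_inv f (S.inv ι f hf) n (fun _ => a) x fun i => (hn i).1
  have h2 := walk_inv f (S.inv ι f hf) n x (fun _ => a) fun i => (hn i).2
  rw [S.idem hf S.fixa] at h1 h2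
  exact ⟨⟨n, h1⟩, n, h2⟩

theorem walk_lift : ∀ (n : ℕ) (x y : {x // Comp H a x}), Walk H n x.1 y.1 →
    Walk (fun u v : {x // Comp H a x} => H u.1 v.1) n x y
  | 0, _, _, h => Subtype.ext h
  | n + 1, x, y, ⟨z, h1, h2⟩ => by
    have hz : Comp H a z := by
      obtain ⟨m, hm⟩ := x.2.1
      obtain ⟨m', hm'⟩ := y.2.2
      exact ⟨⟨_, hm.append (show Walk H 1 x.1 z from ⟨z, h1, rfl⟩)⟩, _, h2.append hm'⟩
    exact ⟨⟨z, hz⟩, h1, walk_lift n ⟨z, hz⟩ y h2⟩

/-- The abstract pseudo-loop theorem. -/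
theorem Setup.loop (S : Setup G Op H a r e) : ∃ (x : B) (g : G), H x (g • x) := by
  have ca : Comp H a a := ⟨⟨0, rfl⟩, 0, rfl⟩
  have cr : Comp H a r := ⟨⟨1, r, S.har, rfl⟩, 1, a, S.hra, rfl⟩
  have ce : Comp H a e := ⟨⟨2, r, S.har, e, S.hre, rfl⟩, 1, a, S.hea, rfl⟩
  let act : MulAction G {x // Comp H a x} :=
    { smul := fun g x => ⟨g • x.1, S.comp_inv (S.smul g) (fun _ => x.1) fun _ => x.2⟩
      one_smul := fun x => Subtype.ext (one_smul G x.1)
      mul_smul := fun g g' x => Subtype.ext (mul_smul g g' x.1) }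
  have hsm : ∀ (g : G) (x : {x // Comp H a x}), (g • x).1 = g • x.1 := fun _ _ => rfl
  have S' : Setup G (fun ι (F : (ι → {x // Comp H a x}) → {x // Comp H a x}) =>
      ∃ f, Op ι f ∧ ∀ x, (F x).1 = f fun i => (x i).1)
      (fun u v => H u.1 v.1) ⟨a, ca⟩ ⟨r, cr⟩ ⟨e, ce⟩ :=
    { proj := fun ι _ i => ⟨_, S.proj ι i, fun _ => rfl⟩
      comp := by
        rintro ι κ _ _ F g ⟨f, hf, hF⟩ hg
        choose g' h1 h2 using hg
        refine ⟨_, S.comp ι κ f g' hf h1, fun x => ?_⟩
        simp only [hF, h2]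
      smul := fun g => ⟨_, S.smul g, fun _ => rfl⟩
      core := by
        rintro ι _ F ⟨f, hf, hF⟩ Φ hΦ
        obtain ⟨g, hg⟩ := S.core ι f hf _ (hΦ.image Subtype.val)
        exact ⟨g, fun x hx => Subtype.ext ((hF _).trans (hg _ ⟨x, hx, rfl⟩))⟩
      inv := by
        rintro ι _ F ⟨f, hf, hF⟩ x y h
        rw [hF, hF]
        exact S.inv ι f hf _ _ h
      fixa := fun g => Subtype.ext (S.fixa g)
      fixr := fun g => Subtype.ext (S.fixr g)
      fixe := fun g => Subtype.ext (S.fixe g)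
      har := S.har
      hra := S.hra
      hre := S.hre
      hea := S.hea
      fin := by
        have := S.fin
        refine Finite.of_injective (fun o : MulAction.orbitRel.Quotient G {x // Comp H a x} =>
          orb G (o.out.1 : B)) fun o o' h => ?_
        obtain ⟨g, hg⟩ := (orb_eq_iff _ _).1 h
        have := (orb_eq_iff (G := G) o.out o'.out).2 ⟨g, Subtype.ext hg⟩
        simpa only [orb, Quotient.out_eq] using this
      sig := by
        obtain ⟨ι, hι, s, hs, h⟩ := S.sig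
        refine ⟨ι, hι, fun x => ⟨s fun i => (x i).1, S.comp_inv hs _ fun i => (x i).2⟩,
          ⟨s, hs, fun _ => rfl⟩, fun i x x' => ?_⟩
        obtain ⟨α, α', h1, h2, h3, h4, g, hg⟩ := h i x.1 x'.1
        refine ⟨fun j => ⟨α j, by rcases h3 j with h | h <;> rw [h]; exacts [x.2, x'.2]⟩,
          fun j => ⟨α' j, by rcases h4 j with h | h <;> rw [h]; exacts [x.2, x'.2]⟩,
          Subtype.ext h1, Subtype.ext h2, fun j => (h3 j).imp Subtype.ext Subtype.ext,
          fun j => (h4 j).imp Subtype.ext Subtype.ext, g, Subtype.ext hg⟩ }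
  obtain ⟨x, g, h⟩ := S'.loop_of_conn
    (fun x => (S.comp_eventually x.2).mono fun n hn => walk_lift n x ⟨a, ca⟩ hn.2)
    (fun x => (S.comp_eventually x.2).mono fun n hn => walk_lift n ⟨a, ca⟩ x hn.1)
  exact ⟨x.1, g, h⟩

end

end Pool.Agent.Lib.MP_71d0e6_al
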