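import Pool.Agent.Lib.MP_71d0e6_al.Marks

/-!
A local loop lemma for an operation that is idempotent only on three named vertices.
The star power of the operation is evaluated on a pruned tree of words.
-/

namespace Pool.Agent.Lib.MP_71d0e6_al

open Classical

noncomputable section

variable {Λ : Type} {B : Type*}

/-- Walks of a given length. -/
def Walk (H : B → B → Prop) : ℕ → B → B → Prop
  | 0, x, y => x = y
  | n + 1, x, y => ∃ z, H x z ∧ Walk H n z y

theorem Walk.seq {H : B → B → Prop} : ∀ {n : ℕ} {x y : B}, Walk H n x y →
    ∃ f : ℕ → B, f n = x ∧ f 0 = y ∧ ∀ s, s < n → H (f (s + 1)) (f s)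
  | 0, x, y, h => ⟨fun _ => x, rfl, h, fun _ hs => absurd hs (Nat.not_lt_zero _)⟩
  | n + 1, x, y, ⟨z, hz, h⟩ => by
    obtain ⟨f, f1, f2, f3⟩ := Walk.seq h
    refine ⟨fun s => if s = n + 1 then x else f s, by simp, by simpa using f2, fun s hs => ?_⟩
    by_cases h1 : s = n
    · subst h1
      simpa [f1] using hz
    · have h2 : s ≠ n + 1 := by omega
      simpa [h1, h2] using f3 s (by omega)

theorem Walk.append {H : B → B → Prop} : ∀ {m n : ℕ} {x y z : B}, Walk H m x y → Walk H n y z →
    Walk H (n + m) x z
  | 0, _, _, _, _, h, h' => by cases h; exact h'
  | _ + 1, _, _, _, _, ⟨w, hw, h⟩, h' => ⟨w, hw, Walk.append h h'⟩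

/-- Leaves of the pruned tree: a nonempty word followed by a run of length `M`. -/
def Stop (M : ℕ) (w : List Λ) : Prop := M < w.length ∧ EndsRun M w

theorem Stop.of_tail {M : ℕ} {w : List Λ} (h : Stop M w.tail) : Stop M w := by
  cases w with
  | nil => exact h
  | cons x l =>
    obtain ⟨h1, u, b, h2⟩ := h
    simp only [List.tail_cons] at h1 h2
    exact ⟨by simp only [List.length_cons]; omega, x :: u, b, by rw [h2]; rfl⟩

theorem Stop.tail {M : ℕ} {w : List Λ} (h : Stop M w) (hl : M + 1 < w.length) :
    Stop M w.tail := by
  obtain ⟨h1, u, b, rfl⟩ := h
  cases u with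
  | nil => simp at hl
  | cons x u =>
    refine ⟨?_, u, b, rfl⟩
    simp only [List.length_tail] at hl ⊢
    omega

/-- The value of the pruned tree below a word. -/
def treeVal (T : (Λ → B) → B) (val : List Λ → B) (M : ℕ) : ℕ → List Λ → B
  | 0, w => val w
  | n + 1, w => if Stop M w then val w else T (fun b => treeVal T val M n (w ++ [b]))

theorem treeVal_stop (T : (Λ → B) → B) (val : List Λ → B) (M : ℕ) (n : ℕ) (w : List Λ)
    (h : Stop M w) : treeVal T val M n w = val w := by
  cases n with
  | zero => rfl
  | succ n => simp only [treeVal, if_pos h]

theorem treeVal_below (H : B → B → Prop) (T : (Λ → B) → B) (val : List Λ → B) (M : ℕ) (a : B)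
    (hT : ∀ x y, (∀ b, H (x b) (y b)) → H (T x) (T y)) (ha : T (fun _ => a) = a) :
    ∀ (n : ℕ) (w : List Λ),
      (∀ v, Stop M (w ++ v) ∨ v.length = n → H a (val (w ++ v))) → H a (treeVal T val M n w)
  | 0, w, h => by simpa [treeVal] using h [] (Or.inr rfl)
  | n + 1, w, h => by
    by_cases hs : Stop M w
    · rw [treeVal_stop _ _ _ _ _ hs]
      simpa using h [] (Or.inl (by simpa using hs))
    · simp only [treeVal, if_neg hs]
      rw [← ha]
      refine hT _ _ fun b => ?_
      refine treeVal_below H T val M a hT ha n (w ++ [b]) fun v hv => ?_
      rw [List.append_assoc] at hv ⊢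
      exact h _ (hv.imp id fun h' => by simp [h'])

theorem run_le_of_good (M : ℕ) (w : List Λ) (hg : ∀ j, j < w.length → ¬ Stop M (w.take j))
    (j : ℕ) : run (w.drop j) ≤ M + 1 := by
  by_contra h
  have h1 := run_le_length (w.drop j)
  rw [List.length_drop] at h1
  obtain ⟨b, hb, -⟩ := take_of_le_run (w.drop j) M (by omega)
  refine hg (j + (M + 1)) (by omega) ⟨by rw [List.length_take]; omega, w.take j ++ [b], b, ?_⟩
  rw [List.take_add, hb, List.append_assoc, List.replicate_succ]
  rfl

theorem long_of_stop (M : ℕ) (b b' : Λ) (hb : b' ≠ b) (v : List Λ)
    (h : Stop M (List.replicate M b ++ b' :: v)) :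
    2 * M ≤ (List.replicate M b ++ b' :: v).length := by
  obtain ⟨h1, u, c, h2⟩ := h
  by_contra hlt
  have hl := congrArg List.length h2
  simp only [List.length_append, List.length_replicate, List.length_cons] at hl hlt h1
  have e1 : (List.replicate M b ++ b' :: v)[M]? = some b' := by
    rw [List.getElem?_append_right (by simp)]
    simp
  have e2 : (List.replicate M b ++ b' :: v)[M - 1]? = some b := by
    rw [List.getElem?_append_left (by simp; omega), List.getElem?_replicate, if_pos (by omega)]
  rw [h2, List.getElem?_append_right (by omega), List.getElem?_replicate,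
    if_pos (by omega)] at e1 e2
  exact hb (Option.some.inj (e1.symm.trans e2))

/-- The local loop lemma. -/
theorem local_loop [Finite Λ] (H : B → B → Prop) (a r e : B) (har : H a r) (hra : H r a)
    (hre : H r e) (hea : H e a) (T : (Λ → B) → B)
    (hT : ∀ x y, (∀ b, H (x b) (y b)) → H (T x) (T y))
    (ha : T (fun _ => a) = a) (hr : T (fun _ => r) = r) (he : T (fun _ => e) = e)
    (W : Λ → B) (k : ℕ) (hW : ∀ b, Walk H (k + 2) a (W b))
    (hWT : ∀ b x, x b = W b → (∀ b', b' ≠ b → H a (x b')) → H (W b) (T x)) :
    ∃ Y, H Y (T (fun _ => Y)) := by
  obtain ⟨q0, ⟨eq⟩⟩ := Finite.exists_equiv_fin Λ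
  set enc : Λ → ℕ := fun b => (eq b : ℕ) with henc0
  have hinj : Function.Injective enc := fun x y h => eq.injective (Fin.ext h)
  have henc : ∀ b, enc b < q0 + 1 := fun b => (eq b).2.trans (Nat.lt_succ_self _)
  have hq : 0 < q0 + 1 := Nat.succ_pos _
  set q := q0 + 1
  choose app app1 app2 app3 using fun b => (hW b).seq
  set F : List Λ → B := vert (Anc (col enc q k)) a r e with hF
  set val : List Λ → B := fun w =>
    if Stop (k + 4) w ∧ w.length ≤ 2 * k + 7 then
      (w.getLast?.map fun b => app b (w.length - (k + 5))).getD a else F w with hval
  set N := 2 * (q * (k + 6) + 1) + 2 * k + 21 with hN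
  have vnear : ∀ u b, 0 < u.length → u.length ≤ k + 3 →
      val (u ++ List.replicate (k + 4) b) = app b (u.length - 1) := by
    intro u b h1 h2
    have hl : (u ++ List.replicate (k + 4) b).length = u.length + (k + 4) := by simp
    simp only [hval]
    rw [if_pos ⟨⟨by omega, u, b, rfl⟩, by omega⟩, List.replicate_succ', ← List.append_assoc,
      List.getLast?_concat]
    simp only [Option.map_some, Option.getD_some, List.length_append, List.length_replicate,
      List.length_singleton]
    congr 1
    omega
  have vfar : ∀ w, 2 * k + 7 < w.length → val w = F w := fun w h => by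
    simp only [hval]
    rw [if_neg (fun h' => by have := h'.2; omega)]
  have vnot : ∀ w, ¬ Stop (k + 4) w → val w = F w := fun w h => by
    simp only [hval]
    rw [if_neg (fun h' => h h'.1)]
  have fstep : ∀ w : List Λ, 3 ≤ w.length → H (F w) (F w.tail) :=
    vert_step _ H a r e har hra hre hea
  have main : ∀ (n : ℕ) (w : List Λ), w.length + n = N → w ≠ [] →
      (∀ j, j < w.length → ¬ Stop (k + 4) (w.take j)) →
      H (treeVal T val (k + 4) n w) (treeVal T val (k + 4) (n + 1) w.tail) := by
    have stopcase : ∀ (n : ℕ) (w : List Λ), w.length + n = N → Stop (k + 4) w →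
        H (treeVal T val (k + 4) n w) (treeVal T val (k + 4) (n + 1) w.tail) := by
      intro n w hn hs
      rw [treeVal_stop _ _ _ _ _ hs]
      by_cases hl : k + 4 + 1 < w.length
      · rw [treeVal_stop _ _ _ _ _ (hs.tail hl)]
        by_cases h1 : 2 * k + 8 < w.length
        · rw [vfar w (by omega), vfar w.tail (by rw [List.length_tail]; omega)]
          exact fstep w (by omega)
        · obtain ⟨h2, u, b, rfl⟩ := hs
          cases u with
          | nil => simp at hl
          | cons x u =>
            simp only [List.length_append, List.length_replicate, List.length_cons] at hl h1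
            have e1 : (x :: u ++ List.replicate (k + 4) b).tail =
                u ++ List.replicate (k + 4) b := rfl
            by_cases h3 : u.length = k + 3
            · rw [vfar _ (by simp; omega)]
              have := fstep (x :: u ++ List.replicate (k + 4) b) (by simp; omega)
              rw [e1, hF, vert_before enc q k hq henc a r e (u ++ List.replicate (k + 4) b)
                ⟨u, b, rfl⟩ (by simp; omega)] at this
              rw [e1, vnear u b (by omega) (by omega), h3,
                show k + 3 - 1 = k + 2 from rfl, app1]
              exact this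
            · rw [e1, vnear u b (by omega) (by omega),
                vnear (x :: u) b (by simp) (by simp; omega)]
              have := app3 b (u.length - 1) (by omega)
              rw [show u.length - 1 + 1 = (x :: u).length - 1 by simp; omega] at this
              exact this
      · obtain ⟨h2, u, b, rfl⟩ := hs
        obtain ⟨x, rfl⟩ : ∃ x, u = [x] := by
          apply List.length_eq_one_iff.1
          simp only [List.length_append, List.length_replicate] at hl h2
          omega
        rw [vnear [x] b (by simp) (by simp)]
        have e1 : ([x] ++ List.replicate (k + 4) b).tail = List.replicate (k + 4) b := rfl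
        have ns : ¬ Stop (k + 4) (List.replicate (k + 4) b) := fun h => by simpa using h.1
        simp only [List.length_singleton, Nat.sub_self, app2, e1, treeVal, if_neg ns]
        simp only [List.length_append, List.length_replicate, List.length_singleton] at hn
        refine hWT b _ ?_ fun b' hb' => ?_
        · have e2 : List.replicate (k + 4) b ++ [b] = [b] ++ List.replicate (k + 4) b := by
            rw [← List.replicate_succ', List.replicate_succ]; rfl
          show treeVal T val (k + 4) n (List.replicate (k + 4) b ++ [b]) = W b
          rw [e2, treeVal_stop _ _ _ _ _ ⟨by simp, [b], b, rfl⟩, vnear [b] b (by simp) (by simp)]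
          simpa using app2 b
        · refine treeVal_below H T val (k + 4) a hT ha n _ fun v hv => ?_
          have e2 : List.replicate (k + 4) b ++ [b'] ++ v =
              List.replicate (k + 4) b ++ b' :: v := by simp
          rw [e2] at hv ⊢
          have hlen : 2 * k + 8 ≤ (List.replicate (k + 4) b ++ b' :: v).length := by
            rcases hv with hv | hv
            · have := long_of_stop (k + 4) b b' hb' v hv
              omega
            · simp only [List.length_append, List.length_replicate, List.length_cons]
              omega
          rw [vfar _ (by omega), hF, vert_after enc q k hq henc a r e b b' hb' v hlen]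
          exact har
    intro n
    induction n with
    | zero =>
      intro w hn hne hg
      by_cases hs : Stop (k + 4) w
      · exact stopcase 0 w hn hs
      · have hs' : ¬ Stop (k + 4) w.tail := fun h => hs h.of_tail
        simp only [treeVal, if_neg hs']
        rw [vnot w hs]
        have hid : T (fun _ => F w) = F w := by
          rcases vert_mem (Anc (col enc q k)) a r e w with h | h | h <;>
            rw [show F w = _ from h] <;> assumption
        rw [← hid]
        refine hT _ _ fun b => ?_
        rw [vfar (w.tail ++ [b]) (by simp; omega)]
        have := vert_append enc q k hq henc hinj a r e w.tail [b]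
          (by rw [List.length_tail]; omega) (fun j => by
            have := run_le_of_good (k + 4) w hg (1 + j)
            rw [← List.drop_drop, List.drop_one] at this
            exact this)
        rw [show F (w.tail ++ [b]) = F w.tail from this]
        exact fstep w (by omega)
    | succ n ih =>
      intro w hn hne hg
      by_cases hs : Stop (k + 4) w
      · exact stopcase (n + 1) w hn hs
      · have hs' : ¬ Stop (k + 4) w.tail := fun h => hs h.of_tail
        rw [treeVal, if_neg hs, treeVal, if_neg hs']
        refine hT _ _ fun b => ?_
        have e1 : w.tail ++ [b] = (w ++ [b]).tail := by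
          cases w with
          | nil => exact absurd rfl hne
          | cons x l => rfl
        rw [e1]
        refine ih (w ++ [b]) (by simp; omega) (by simp) fun j hj => ?_
        simp only [List.length_append, List.length_singleton] at hj
        rw [List.take_append_of_le_length (by omega)]
        by_cases hj' : j < w.length
        · exact hg j hj'
        · rw [List.take_of_length_le (by omega)]
          exact hs
  have ns : ¬ Stop (k + 4) ([] : List Λ) := fun h => by simpa using h.1
  refine ⟨treeVal T val (k + 4) (N - 1 + 1) [], ?_⟩
  conv_lhs => rw [treeVal, if_neg ns]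
  refine hT _ _ fun b => ?_
  refine main (N - 1) [b] (by simp; omega) (by simp) fun j hj => ?_
  have : j = 0 := by simpa using hj
  subst this
  exact ns

end

end Pool.Agent.Lib.MP_71d0e6_al
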